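import Pool.Agent.H64.G.T9f66d723.W5h41.MA13

set_option autoImplicit false

/-! # The criterion for functions of `h` -/

namespace Pool.Agent.W5h41.MA

open Complex Metric Set Filter Topology MeasureTheory
open Pool.Agent.W677.Mar

/-- **The criterion, for a continuous positively homogeneous function of `h`.** -/
theorem criterionG {G : ℂ → ℂ} (hGc : Continuous G) (hGh : ∀ c : ℝ, 0 < c → ∀ v, G (c * v) = c * G v)
    {a κ u0 C0 : ℝ} (ha : 0 < a) (hκ : 0 < κ) (hu0 : 0 < u0)
    (haκ : 4 * a * κ < 1)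
    (hsmall : ∀ t : ℂ, ‖t‖ ≤ u0 / κ → ∀ Y H : ℂ → ℂ, Sg Y H → ∀ r ∈ Ioo (0 : ℝ) 1,
      ∫ x in (0:ℝ)..(2 * Real.pi), Real.exp ((starRingEnd ℂ) t * G (H (circleMap 0 r x))).re ≤
      C0 * Real.exp (κ * ‖t‖ ^ 2 * lam (r ^ 2)))
    (hbig : ∀ u : ℂ, u0 ≤ ‖G u‖ → ‖u‖ ≤ 1 → ∃ (C B : ℝ) (t : ℂ), MB C t B ∧
      a * ‖G u‖ ^ 2 < ((starRingEnd ℂ) t * u).re - B) :
    ∃ C : ℝ, ∀ Y H : ℂ → ℂ, Sg Y H → ∀ r ∈ Ioo (0 : ℝ) 1,
      ∫ x in (0:ℝ)..(2 * Real.pi), Real.exp (a * ‖G (H (circleMap 0 r x))‖ ^ 2 / lam (r ^ 2)) ≤ C := by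
  have hpi := Real.pi_pos
  -- the finite cover
  choose! Cf Bf tf hMB hlt using hbig
  set K : Set ℂ := closedBall 0 1 ∩ {u | u0 ≤ ‖G u‖} with hK
  have hKc : IsCompact K :=
    (isCompact_closedBall (0 : ℂ) 1).inter_right (isClosed_le continuous_const hGc.norm)
  have hK1 : ∀ u ∈ K, u0 ≤ ‖G u‖ ∧ ‖u‖ ≤ 1 := fun u hu => ⟨hu.2, mem_closedBall_zero_iff.1 hu.1⟩
  obtain ⟨F, hFK, hF⟩ := hKc.elim_nhds_subcover
    (fun u => {v : ℂ | a * ‖G v‖ ^ 2 < ((starRingEnd ℂ) (tf u) * v).re - Bf u}) (fun u hu => by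
      apply (isOpen_lt _ _).mem_nhds (hlt u (hK1 u hu).1 (hK1 u hu).2)
      · fun_prop
      · exact (Complex.continuous_re.comp (continuous_const.mul continuous_id)).sub continuous_const)
  refine ⟨(2 * Real.pi + max C0 0) / (1 - 4 * a * κ) + ∑ k ∈ F, Cf k, ?_⟩
  intro Y H S r hr
  have hL := lam_pos hr
  set L := lam (r ^ 2) with hLd
  obtain ⟨b, hb⟩ : ∃ b, b = L / (4 * a) := ⟨_, rfl⟩
  have hb0 : 0 < b := by rw [hb]; positivity
  have hM : 0 < u0 * L := by positivity
  have hcirc : ∀ t : ℝ, ‖circleMap 0 r t‖ = r := fun t => by simp [abs_of_pos hr.1]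
  have hcb : ∀ x : ℝ, circleMap 0 r x ∈ ball (0 : ℂ) 1 := fun x => by
    rw [mem_ball_zero_iff, hcirc]; exact hr.2
  set g : ℝ → ℂ := fun x => H (circleMap 0 r x) with hg
  have hgc : Continuous g := S.dH.continuousOn.comp_continuous (continuous_circleMap 0 r) hcb
  have hgL : ∀ x, ‖g x‖ ≤ L := by
    intro x
    have h1 := goluzin S (hcb x)
    rw [hcirc] at h1
    exact h1
  have hGg : Continuous fun x => G (g x) := hGc.comp hgc
  -- the truncated part
  have htc : Continuous fun x => trunc (u0 * L) (G (g x)) := (trunc_cont hM).comp hGg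
  have hmom : ∀ t : ℂ, ∫ x in (0:ℝ)..(2 * Real.pi),
      Real.exp ((starRingEnd ℂ) t * trunc (u0 * L) (G (g x))).re ≤
      (2 * Real.pi + max C0 0) * Real.exp (κ * L * ‖t‖ ^ 2) := by
    intro t
    have hE : 1 ≤ Real.exp (κ * L * ‖t‖ ^ 2) := Real.one_le_exp (by positivity)
    have hm0 : 0 ≤ max C0 0 := le_max_right _ _
    rcases le_or_gt ‖t‖ (u0 / κ) with h1 | h1
    · have h2 := hsmall t h1 Y H S r hr
      have h3 : ∫ x in (0:ℝ)..(2 * Real.pi), Real.exp ((starRingEnd ℂ) t * trunc (u0 * L) (G (g x))).re ≤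
          ∫ x in (0:ℝ)..(2 * Real.pi), (1 + Real.exp ((starRingEnd ℂ) t * G (g x)).re) := by
        apply intervalIntegral.integral_mono_on (by positivity)
        · apply Continuous.intervalIntegrable
          exact Real.continuous_exp.comp (Complex.continuous_re.comp (continuous_const.mul htc))
        · apply Continuous.intervalIntegrable
          exact continuous_const.add
            (Real.continuous_exp.comp (Complex.continuous_re.comp (continuous_const.mul hGg)))
        · intro x _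
          exact trunc_exp hM t (G (g x))
      have hi : IntervalIntegrable (fun x => Real.exp ((starRingEnd ℂ) t * G (g x)).re) volume 0
          (2 * Real.pi) := by
        apply Continuous.intervalIntegrable
        exact Real.continuous_exp.comp (Complex.continuous_re.comp (continuous_const.mul hGg))
      rw [intervalIntegral.integral_add intervalIntegrable_const hi,
        intervalIntegral.integral_const, smul_eq_mul, mul_one, sub_zero] at h3
      have h4 : C0 * Real.exp (κ * ‖t‖ ^ 2 * L) ≤ max C0 0 * Real.exp (κ * L * ‖t‖ ^ 2) := by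
        rw [show κ * ‖t‖ ^ 2 * L = κ * L * ‖t‖ ^ 2 by ring]
        exact mul_le_mul_of_nonneg_right (le_max_left _ _) (Real.exp_pos _).le
      have h5 : 2 * Real.pi ≤ 2 * Real.pi * Real.exp (κ * L * ‖t‖ ^ 2) :=
        le_mul_of_one_le_right (by positivity) hE
      have h6 : ∫ x in (0:ℝ)..(2 * Real.pi), Real.exp ((starRingEnd ℂ) t * G (g x)).re ≤
        C0 * Real.exp (κ * ‖t‖ ^ 2 * L) := h2
      rw [add_mul]
      linarith
    · have h2 : ∫ x in (0:ℝ)..(2 * Real.pi), Real.exp ((starRingEnd ℂ) t * trunc (u0 * L) (G (g x))).re ≤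
          ∫ _x in (0:ℝ)..(2 * Real.pi), Real.exp (κ * L * ‖t‖ ^ 2) := by
        apply intervalIntegral.integral_mono_on (by positivity)
        · apply Continuous.intervalIntegrable
          exact Real.continuous_exp.comp (Complex.continuous_re.comp (continuous_const.mul htc))
        · exact intervalIntegrable_const
        · intro x _
          apply Real.exp_le_exp.2
          have h3 := trunc_norm hM (G (g x))
          have h4 : u0 ≤ κ * ‖t‖ := by
            rw [div_lt_iff₀ hκ] at h1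
            linarith
          calc ((starRingEnd ℂ) t * trunc (u0 * L) (G (g x))).re ≤
                ‖(starRingEnd ℂ) t * trunc (u0 * L) (G (g x))‖ := Complex.re_le_norm _
            _ = ‖t‖ * ‖trunc (u0 * L) (G (g x))‖ := by rw [norm_mul, RCLike.norm_conj]
            _ ≤ ‖t‖ * (u0 * L) := mul_le_mul_of_nonneg_left h3 (norm_nonneg t)
            _ ≤ ‖t‖ * (κ * ‖t‖ * L) := by
                apply mul_le_mul_of_nonneg_left _ (norm_nonneg t)
                exact mul_le_mul_of_nonneg_right h4 hL.le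
            _ = _ := by ring
      rw [intervalIntegral.integral_const, smul_eq_mul, sub_zero] at h2
      rw [add_mul]
      have h5 : 0 ≤ max C0 0 * Real.exp (κ * L * ‖t‖ ^ 2) := by positivity
      linarith
  have hbm0 : 0 < b - κ * L := by
    rw [hb]
    have : κ * L * (4 * a) < L := by nlinarith
    rw [sub_pos, lt_div_iff₀ (by positivity)]
    exact this
  obtain ⟨g1, g2⟩ := gauss0 hbm0
  have e1 : (fun t : ℂ => Real.exp (-b * ‖t‖ ^ 2) * ((2 * Real.pi + max C0 0) *
      Real.exp (κ * L * ‖t‖ ^ 2))) =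
      fun t : ℂ => (2 * Real.pi + max C0 0) * Real.exp (-(b - κ * L) * ‖t‖ ^ 2) := by
    funext t
    have : Real.exp (-(b - κ * L) * ‖t‖ ^ 2) = Real.exp (-b * ‖t‖ ^ 2) *
        Real.exp (κ * L * ‖t‖ ^ 2) := by
      rw [← Real.exp_add]
      congr 1
      ring
    rw [this]
    ring
  have h1 := gauss_avg htc (fun x => trunc_norm hM (G (g x))) hb0 hmom (by rw [e1]; exact g1.const_mul _)
  rw [e1, integral_const_mul, g2] at h1
  have h2 : b / Real.pi * ((2 * Real.pi + max C0 0) * (Real.pi / (b - κ * L))) =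
      (2 * Real.pi + max C0 0) / (1 - 4 * a * κ) := by
    have h3 : b - κ * L = b * (1 - 4 * a * κ) := by
      rw [hb]
      field_simp
    have h4 : 1 - 4 * a * κ ≠ 0 := by
      have : 0 < 1 - 4 * a * κ := by linarith
      exact this.ne'
    rw [h3]
    field_simp
  rw [h2] at h1
  -- the pointwise bound
  have hpt : ∀ x, Real.exp (a * ‖G (g x)‖ ^ 2 / L) ≤ Real.exp (‖trunc (u0 * L) (G (g x))‖ ^ 2 / (4 * b)) +
      ∑ k ∈ F, Real.exp (-(Bf k * L)) * Real.exp ((starRingEnd ℂ) (tf k) * g x).re := by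
    intro x
    have hnn : 0 ≤ ∑ k ∈ F, Real.exp (-(Bf k * L)) * Real.exp ((starRingEnd ℂ) (tf k) * g x).re :=
      Finset.sum_nonneg fun k _ => by positivity
    rcases le_or_gt ‖G (g x)‖ (u0 * L) with h3 | h3
    · rw [trunc_eq hM h3]
      have e2 : ‖G (g x)‖ ^ 2 / (4 * b) = a * ‖G (g x)‖ ^ 2 / L := by
        rw [hb]
        field_simp
      rw [e2]
      linarith
    · set u : ℂ := g x / (L : ℂ) with hu
      have hLc : (L : ℂ) ≠ 0 := by exact_mod_cast hL.ne'
      have hun : ‖u‖ = ‖g x‖ / L := by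
        rw [hu, norm_div, Complex.norm_real, Real.norm_of_nonneg hL.le]
      have hgu : g x = L * u := by rw [hu]; field_simp
      have hGu : ‖G (g x)‖ = L * ‖G u‖ := by
        rw [hgu, hGh L hL, norm_mul, Complex.norm_real, Real.norm_of_nonneg hL.le]
      have huK : u ∈ K := by
        refine ⟨?_, ?_⟩
        · rw [mem_closedBall_zero_iff, hun, div_le_one hL]
          exact hgL x
        · show u0 ≤ ‖G u‖
          rw [hGu] at h3
          have h3' : L * u0 < L * ‖G u‖ := by linarith
          exact (lt_of_mul_lt_mul_left h3' hL.le).le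
      obtain ⟨k, hkF, hk⟩ := mem_iUnion₂.1 (hF huK)
      have hk' : a * ‖G u‖ ^ 2 < ((starRingEnd ℂ) (tf k) * u).re - Bf k := hk
      have h4 : Real.exp (a * ‖G (g x)‖ ^ 2 / L) ≤ Real.exp (-(Bf k * L)) *
          Real.exp ((starRingEnd ℂ) (tf k) * g x).re := by
        rw [← Real.exp_add]
        apply Real.exp_le_exp.2
        have e2 : a * ‖G (g x)‖ ^ 2 / L = L * (a * ‖G u‖ ^ 2) := by
          rw [hGu]
          field_simp
        have e3 : ((starRingEnd ℂ) (tf k) * g x).re = L * ((starRingEnd ℂ) (tf k) * u).re := by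
          rw [hgu, show (starRingEnd ℂ) (tf k) * ((L : ℂ) * u) = (L : ℂ) *
            ((starRingEnd ℂ) (tf k) * u) by ring, Complex.re_ofReal_mul]
        rw [e2, e3]
        nlinarith
      have h5 := Finset.single_le_sum (f := fun k => Real.exp (-(Bf k * L)) *
        Real.exp ((starRingEnd ℂ) (tf k) * g x).re) (fun k _ => by positivity) hkF
      have h6 := Real.exp_pos (‖trunc (u0 * L) (G (g x))‖ ^ 2 / (4 * b))
      linarith
  have hgi : ∀ k, IntervalIntegrable (fun x => Real.exp (-(Bf k * L)) *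
      Real.exp ((starRingEnd ℂ) (tf k) * g x).re) volume 0 (2 * Real.pi) := by
    intro k
    apply Continuous.intervalIntegrable
    exact continuous_const.mul
      (Real.continuous_exp.comp (Complex.continuous_re.comp (continuous_const.mul hgc)))
  have hsi : IntervalIntegrable (fun x => ∑ k ∈ F, Real.exp (-(Bf k * L)) *
      Real.exp ((starRingEnd ℂ) (tf k) * g x).re) volume 0 (2 * Real.pi) := by
    apply Continuous.intervalIntegrable
    apply continuous_finsetSum
    intro k _
    exact continuous_const.mul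
      (Real.continuous_exp.comp (Complex.continuous_re.comp (continuous_const.mul hgc)))
  have hti : IntervalIntegrable (fun x => Real.exp (‖trunc (u0 * L) (G (g x))‖ ^ 2 / (4 * b))) volume 0
      (2 * Real.pi) := by
    apply Continuous.intervalIntegrable
    exact Real.continuous_exp.comp ((htc.norm.pow 2).div_const _)
  have h7 : ∫ x in (0:ℝ)..(2 * Real.pi), Real.exp (a * ‖G (g x)‖ ^ 2 / L) ≤
      ∫ x in (0:ℝ)..(2 * Real.pi), (Real.exp (‖trunc (u0 * L) (G (g x))‖ ^ 2 / (4 * b)) +
      ∑ k ∈ F, Real.exp (-(Bf k * L)) * Real.exp ((starRingEnd ℂ) (tf k) * g x).re) := by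
    apply intervalIntegral.integral_mono_on (by positivity)
    · apply Continuous.intervalIntegrable
      exact Real.continuous_exp.comp ((continuous_const.mul (hGg.norm.pow 2)).div_const _)
    · exact hti.add hsi
    · intro x _
      exact hpt x
  rw [intervalIntegral.integral_add hti hsi,
    intervalIntegral.integral_finsetSum fun k _ => hgi k] at h7
  refine h7.trans (add_le_add h1 ?_)
  apply Finset.sum_le_sum
  intro k hk
  rw [intervalIntegral.integral_const_mul]
  have hkK := hK1 k (hFK k hk)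
  have h8 : ∫ x in (0:ℝ)..(2 * Real.pi), Real.exp ((starRingEnd ℂ) (tf k) * g x).re ≤
      Cf k * Real.exp (Bf k * L) := hMB k hkK.1 hkK.2 Y H S r hr
  calc Real.exp (-(Bf k * L)) * ∫ x in (0:ℝ)..(2 * Real.pi),
        Real.exp ((starRingEnd ℂ) (tf k) * g x).re ≤
        Real.exp (-(Bf k * L)) * (Cf k * Real.exp (Bf k * L)) :=
          mul_le_mul_of_nonneg_left h8 (Real.exp_pos _).le
    _ = Cf k * (Real.exp (-(Bf k * L)) * Real.exp (Bf k * L)) := by ring
    _ = Cf k := by rw [← Real.exp_add]; simp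

end Pool.Agent.W5h41.MA
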