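import Pool.Agent.H64.G.T9f66d723.W5h41.MA10

set_option autoImplicit false

/-! # The integral means -/

namespace Pool.Agent.W5h41.MA

open Complex Metric Set Filter Topology MeasureTheory
open Pool.Agent.W677.Mar
open Polynomial (X)

variable {Y H : ℂ → ℂ} {f : ℂ × ℂ → ℂ}

theorem cf_le {φ : ℂ → ℂ} {r' R C : ℝ} (hR : 0 < R) (hRr : R < r')
    (h : DifferentiableOn ℂ φ (ball 0 r')) (hC : ∀ z : ℂ, ‖z‖ = R → ‖φ z‖ ≤ C) (m : ℕ) :
    ‖cf m φ‖ ≤ C / R ^ m := by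
  have hd : DiffContOnCl ℂ φ (ball 0 R) :=
    ((h.mono (closedBall_subset_ball hRr)).mono closure_ball_subset_closedBall).diffContOnCl
  have h1 := norm_iteratedDeriv_le_of_forall_mem_sphere_norm_le m hR hd
    (fun z hz => hC z (mem_sphere_zero_iff_norm.1 hz))
  unfold cf
  have h2 : (0 : ℝ) < m.factorial := by exact_mod_cast m.factorial_pos
  rw [norm_mul, norm_inv, Complex.norm_natCast, inv_mul_le_iff₀ h2]
  refine h1.trans (le_of_eq ?_)
  ring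

/-- lower bound for the moments -/
theorem mom_low {σ : ℝ} (hσ0 : 0 < σ) (hσ1 : σ ≤ 1) (m : ℕ) :
    1 ≤ (1 + σ) * ((m : ℝ) + 1) ^ σ * (σ * Lam σ (X ^ (m + 1))) := by
  induction m with
  | zero =>
    have h1 := mom_succ hσ0 0
    have h0 := mom_zero hσ0
    rw [Nat.cast_zero, zero_add, Real.one_rpow, mul_one]
    push_cast at h1
    have h2 : (1 + σ) * (σ * Lam σ (X ^ (0 + 1))) = 1 := by
      have : (0 + 1 + σ) * Lam σ (X ^ (0 + 1)) = (0 + 1) * Lam σ (X ^ 0) := h1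
      rw [show (1 + σ) * (σ * Lam σ (X ^ (0 + 1))) = σ * ((0 + 1 + σ) * Lam σ (X ^ (0 + 1))) by ring,
        this]
      linarith
    rw [h2]
  | succ m ih =>
    have h1 := mom_succ hσ0 (m + 1)
    push_cast at h1 ⊢
    have hm0 : (0 : ℝ) < m + 1 := by positivity
    have hm2 : (0 : ℝ) < m + 1 + 1 := by positivity
    have hB := rpow_one_add_le_one_add_mul_self (s := -(1 / ((m : ℝ) + 1 + 1))) (p := σ) (by
      rw [neg_le_neg_iff, div_le_one hm2]; linarith) hσ0.le hσ1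
    have e1 : 1 + -(1 / ((m : ℝ) + 1 + 1)) = (m + 1) / (m + 1 + 1) := by
      field_simp
      ring
    rw [e1, Real.div_rpow hm0.le hm2.le] at hB
    set A := ((m : ℝ) + 1) ^ σ with hA
    set B := ((m : ℝ) + 1 + 1) ^ σ with hB'
    have hA0 : 0 < A := Real.rpow_pos_of_pos hm0 _
    have hB0 : 0 < B := Real.rpow_pos_of_pos hm2 _
    rw [div_le_iff₀ hB0] at hB
    set y := 1 / ((m : ℝ) + 1 + 1) with hy
    have hy0 : 0 < y := by positivity
    -- A (1 + σ y) ≤ B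
    have h3 : A * (1 + σ * y) ≤ B := by
      have h4 : A * (1 + σ * y) ≤ (1 + σ * -y) * B * (1 + σ * y) :=
        mul_le_mul_of_nonneg_right hB (by positivity)
      have h5 : (1 + σ * -y) * B * (1 + σ * y) = B - B * (σ * y) ^ 2 := by ring
      have h6 : 0 ≤ B * (σ * y) ^ 2 := by positivity
      linarith
    have h7 : (1 + σ * y) * Lam σ (X ^ (m + 1 + 1)) = Lam σ (X ^ (m + 1)) := by
      have : (m + 1 + 1 : ℝ) * ((1 + σ * y) * Lam σ (X ^ (m + 1 + 1))) =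
          (m + 1 + 1) * Lam σ (X ^ (m + 1)) := by
        rw [← h1, hy]
        field_simp
      exact mul_left_cancel₀ hm2.ne' this
    have h8 := mom_pos hσ0 (m + 1 + 1)
    calc (1 : ℝ) ≤ (1 + σ) * A * (σ * Lam σ (X ^ (m + 1))) := ih
      _ = (1 + σ) * (A * (1 + σ * y)) * (σ * Lam σ (X ^ (m + 1 + 1))) := by rw [← h7]; ring
      _ ≤ (1 + σ) * B * (σ * Lam σ (X ^ (m + 1 + 1))) := by
        apply mul_le_mul_of_nonneg_right _ (by positivity)
        apply mul_le_mul_of_nonneg_left h3 (by positivity)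

theorem pow_low {r : ℝ} (h0 : 0 < r) (h1 : r < 1) {σ : ℝ} (hσ0 : 0 < σ) (hσ1 : σ ≤ 1) (m : ℕ) :
    r ^ m * (1 - r) ^ σ ≤ (1 + σ) * (σ * Lam σ (X ^ m)) := by
  have hr : 0 < 1 - r := by linarith
  rcases m with _ | m
  · rw [mom_zero hσ0, pow_zero, one_mul, mul_one]
    have := Real.rpow_le_one hr.le (by linarith : 1 - r ≤ 1) hσ0.le
    linarith
  · have h2 := mom_low hσ0 hσ1 m
    have hp := mom_pos hσ0 (m + 1)
    have hm0 : (0 : ℝ) < m + 1 := by positivity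
    set A := ((m : ℝ) + 1) ^ σ with hA
    have hA0 : 0 < A := Real.rpow_pos_of_pos hm0 _
    -- A * (1 - r)^σ * r^(m+1) ≤ 1
    have h3 : A * (1 - r) ^ σ ≤ 1 + (m + 1) * (1 - r) := by
      rw [hA, ← Real.mul_rpow hm0.le hr.le]
      set y := ((m : ℝ) + 1) * (1 - r) with hy
      have hy0 : 0 < y := by positivity
      rcases le_or_gt y 1 with h4 | h4
      · have := Real.rpow_le_one hy0.le h4 hσ0.le
        linarith
      · have := Real.rpow_le_rpow_of_exponent_le h4.le hσ1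
        rw [Real.rpow_one] at this
        linarith
    have h4 : r ^ (m + 1) * (1 + (m + 1) * (1 - r)) ≤ 1 := by
      have h5 := one_add_mul_le_pow (a := 1 - r) (by linarith) (m + 1)
      push_cast at h5
      calc r ^ (m + 1) * (1 + (m + 1) * (1 - r)) ≤ r ^ (m + 1) * (1 + (1 - r)) ^ (m + 1) :=
            mul_le_mul_of_nonneg_left h5 (by positivity)
        _ = (r * (1 + (1 - r))) ^ (m + 1) := by rw [mul_pow]
        _ ≤ 1 := by
          apply pow_le_one₀ (by nlinarith)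
          nlinarith [sq_nonneg (1 - r)]
    have h5 : r ^ (m + 1) * (1 - r) ^ σ * A ≤ 1 := by
      calc r ^ (m + 1) * (1 - r) ^ σ * A = r ^ (m + 1) * (A * (1 - r) ^ σ) := by ring
        _ ≤ r ^ (m + 1) * (1 + (m + 1) * (1 - r)) := mul_le_mul_of_nonneg_left h3 (by positivity)
        _ ≤ 1 := h4
    have h6 : r ^ (m + 1) * (1 - r) ^ σ * A ≤ (1 + σ) * (σ * Lam σ (X ^ (m + 1))) * A := by
      calc r ^ (m + 1) * (1 - r) ^ σ * A ≤ 1 := h5
        _ ≤ (1 + σ) * A * (σ * Lam σ (X ^ (m + 1))) := h2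
        _ = _ := by ring
    exact le_of_mul_le_mul_right h6 hA0

theorem kap_le_one {σ θ : ℝ} (hσ : 0 < σ) (hθ0 : 0 < θ) (hθ1 : θ < 1) : kap σ θ ≤ 1 := by
  unfold kap
  rw [div_le_one (by positivity)]
  nlinarith

theorem lam_half {v : ℂ} (hv : ‖v‖ ≤ 1 / 2) : -Real.log (1 - ‖v‖ ^ 2) ≤ 1 := by
  have h1 : 3 / 4 ≤ 1 - ‖v‖ ^ 2 := by
    have := norm_nonneg v
    nlinarith
  have h2 := Real.one_sub_inv_le_log_of_pos (by linarith : 0 < 1 - ‖v‖ ^ 2)
  have h3 : (1 - ‖v‖ ^ 2)⁻¹ ≤ 4 / 3 := by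
    rw [inv_le_comm₀ (by linarith) (by norm_num)]
    linarith
  linarith

/-- **The integral means of the exponentials.** -/
theorem mean_bound {θ δ : ℝ} (hθ0 : 0 < θ) (hθ1 : θ < 1) (hδ : 0 < δ) :
    ∃ C : ℝ, 0 ≤ C ∧ ∀ Y H : ℂ → ℂ, Sg Y H → ∀ (s : ℂ) (σ : ℝ), s ≠ 0 → ‖s‖ ≤ 1 → 0 < σ → σ ≤ 1 →
      kap σ θ + δ ≤ θ * (1 - θ) * (1 + σ) * σ * ‖((1 / (1 + σ) : ℝ) : ℂ) - 1 / (2 * s)‖ ^ 2 →
      ∀ r ∈ Ioo (0 : ℝ) 1, (∫ t in (0:ℝ)..(2 * Real.pi),
        ‖Complex.exp (s * H (circleMap 0 r t))‖ ^ 2) * (1 - r) ^ σ ≤ C := by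
  obtain ⟨ε, hε⟩ : ∃ ε, ε = δ / 4 := ⟨_, rfl⟩
  have hε0 : 0 < ε := by rw [hε]; positivity
  obtain ⟨N, hN, hNG⟩ := exists_N hθ0 hθ1 hε0
  obtain ⟨m₀, hm₀⟩ : ∃ m₀ : ℕ, m₀ = max N (⌈1 / ε⌉₊ + 2) := ⟨_, rfl⟩
  have hNm : N ≤ m₀ := by rw [hm₀]; exact le_max_left _ _
  have hmm : 1 / ε + 2 ≤ m₀ := by
    have h1 : ⌈1 / ε⌉₊ + 2 ≤ m₀ := by rw [hm₀]; exact le_max_right _ _
    have h2 : (1 / ε : ℝ) ≤ ⌈1 / ε⌉₊ := Nat.le_ceil _
    have h3 : ((⌈1 / ε⌉₊ + 2 : ℕ) : ℝ) ≤ m₀ := by exact_mod_cast h1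
    push_cast at h3
    linarith
  obtain ⟨K, hK⟩ : ∃ K : ℝ, K = (1 + 2 * (1 + 1 + ε) / ε) *
    ∑ m ∈ Finset.range m₀, (Real.exp 1 / (1 / 2) ^ m) ^ 2 := ⟨_, rfl⟩
  have hK0 : 0 ≤ K := by rw [hK]; positivity
  refine ⟨2 * Real.pi * (2 * K), by positivity, ?_⟩
  intro Y H S s σ hs hs1 hσ0 hσ1 hcond r hr
  obtain ⟨f, L⟩ := exists_Lg S
  obtain ⟨ρ, hρ⟩ : ∃ ρ, ρ = Real.sqrt r := ⟨_, rfl⟩
  have hρ0 : 0 < ρ := by rw [hρ]; exact Real.sqrt_pos.2 hr.1
  have hρ2 : ρ ^ 2 = r := by rw [hρ]; exact Real.sq_sqrt hr.1.le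
  have hρ1 : ρ < 1 := by
    have := hr.2
    nlinarith
  have hR0 : 1 < ρ⁻¹ := (one_lt_inv₀ hρ0).2 hρ1
  set e := ee θ ρ s H f with he
  have hed : ∀ k, DifferentiableOn ℂ (e k) (ball 0 ρ⁻¹) := fun k => ee_diff S L hρ0 θ s k
  -- geometric decay
  obtain ⟨R1, hR1, hR2⟩ := exists_between hR0
  have hR10 : 0 < R1 := by linarith
  obtain ⟨C1, hC1⟩ := (isCompact_sphere (0 : ℂ) R1).exists_bound_of_continuousOn (f := e 0)
    ((hed 0).continuousOn.mono fun z hz => by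
      rw [mem_sphere_zero_iff_norm] at hz
      rw [mem_ball_zero_iff, hz]
      exact hR2)
  have hdec : ∀ m, ‖cf m (e 0)‖ ^ 2 ≤ C1 ^ 2 * ((R1 ^ 2)⁻¹) ^ m := by
    intro m
    have h1 := cf_le hR10 hR2 (hed 0) (fun z hz => hC1 z (mem_sphere_zero_iff_norm.2 hz)) m
    have h2 := pow_le_pow_left₀ (norm_nonneg _) h1 2
    refine h2.trans (le_of_eq ?_)
    rw [div_pow, inv_pow, ← pow_mul, ← pow_mul, mul_comm m 2, div_eq_mul_inv]
  -- uniform bound of the first coefficients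
  have hfirst : ∀ m, ‖cf m (e 0)‖ ≤ Real.exp 1 / (1 / 2) ^ m := by
    apply cf_le (by norm_num) (by linarith) (hed 0)
    intro z hz
    have hzb : z ∈ ball (0 : ℂ) ρ⁻¹ := by
      rw [mem_ball_zero_iff, hz]; linarith
    rw [he, ee_zero S L hρ0 θ s hzb, Complex.norm_exp]
    apply Real.exp_le_exp.2
    have h1 : ‖(ρ : ℂ) * z‖ ≤ 1 / 2 := by
      rw [norm_mul, Complex.norm_real, Real.norm_of_nonneg hρ0.le, hz]
      linarith
    have h2 := goluzin S (scale_mem hρ0 hzb)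
    have h3 := lam_half h1
    calc (s * H (ρ * z)).re ≤ ‖s * H (ρ * z)‖ := Complex.re_le_norm _
      _ = ‖s‖ * ‖H (ρ * z)‖ := norm_mul _ _
      _ ≤ 1 * 1 := mul_le_mul hs1 (h2.trans h3) (norm_nonneg _) (by norm_num)
      _ = 1 := one_mul 1
  -- the first coefficient of e 1
  have hone : ∀ m : ℕ, 1 ≤ m → cf (m - 1) (e 1) = -(θ : ℂ) * (1 / (2 * s)) * m * cf m (e 0) := by
    intro m hm
    obtain ⟨j, rfl⟩ : ∃ j, m = j + 1 := ⟨m - 1, by omega⟩
    have h2s : (2 * s) ≠ 0 := mul_ne_zero two_ne_zero hs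
    have h1 : cf j (e 1) = -(θ / (2 * s)) * cf j (deriv (e 0)) := by
      have hev : e 1 =ᶠ[𝓝 0] fun w => -(θ / (2 * s)) * deriv (e 0) w := by
        filter_upwards [isOpen_ball.mem_nhds (mem_ball_self (by linarith : (0:ℝ) < ρ⁻¹))] with w hw
        exact ee_one S L hρ0 θ hs hw
      unfold cf
      rw [hev.iteratedDeriv_eq j, iteratedDeriv_const_mul_field]
      ring
    rw [Nat.add_sub_cancel, h1, cf_deriv]
    push_cast
    field_simp
  have hkap1 := kap_le_one hσ0 hθ0 hθ1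
  have hsum := sum_bound (K := C1 ^ 2) (s := (R1 ^ 2)⁻¹) (τ := 1 / (2 * s)) (m₀ := m₀) (N := N)
    (a := fun k m => cf m (e k)) hσ0 hθ0 hθ1 hε0
    (by positivity) (inv_lt_one_of_one_lt₀ (by nlinarith)) hN hNm (hNG σ hσ0 hσ1) (by
      have h1 : ε * (1 / ε + 2) ≤ ε * m₀ := mul_le_mul_of_nonneg_left hmm hε0.le
      have h2 : ε * (1 / ε + 2) = 1 + 2 * ε := by field_simp
      nlinarith) hσ1 (by
      have : 4 * ε = δ := by rw [hε]; ring
      rw [this]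
      exact hcond) hdec hone (fun x hx M => quad S L hρ0 hρ1 hθ0 hθ1 s hx N M)
  -- the partial sums
  have hpart : ∀ M, ∑ m ∈ Finset.range M, σ * Lam σ (X ^ m) * ‖cf m (e 0)‖ ^ 2 ≤ K := by
    intro M
    refine (hsum M).trans ?_
    rw [hK]
    apply mul_le_mul
    · have : 2 * (kap σ θ + 1 + ε) / ε ≤ 2 * (1 + 1 + ε) / ε := by
        apply div_le_div_of_nonneg_right _ hε0.le
        linarith
      linarith
    · apply Finset.sum_le_sum
      intro m _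
      exact pow_le_pow_left₀ (norm_nonneg _) (hfirst m) 2
    · positivity
    · positivity
  have hcirc : ∀ t : ℝ, ‖circleMap 0 ρ t‖ = ρ := fun t => by simp [abs_of_pos hρ0]
  have hwb : ∀ w : ℂ, ‖w‖ = ρ → w ∈ ball (0 : ℂ) ρ⁻¹ := fun w hw => by
    rw [mem_ball_zero_iff, hw]; linarith
  have P := pars hρ0.le (fun z hz => cf_hasSum (hed 0) (hwb z hz))
  rw [hρ2] at P
  have hr1 : 0 < (1 - r) ^ σ := Real.rpow_pos_of_pos (by linarith [hr.2]) _
  have hle : ((2 * Real.pi)⁻¹ * (∫ t in (0:ℝ)..(2 * Real.pi), (starRingEnd ℂ) (e 0 (circleMap 0 ρ t)) *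
        e 0 (circleMap 0 ρ t)).re) * (1 - r) ^ σ ≤ 2 * K := by
    have h1 := (P.mul_right ((1 - r) ^ σ)).tendsto_sum_nat
    apply le_of_tendsto' h1
    intro M
    calc ∑ i ∈ Finset.range M, r ^ i * ‖cf i (e 0)‖ ^ 2 * (1 - r) ^ σ
        ≤ ∑ i ∈ Finset.range M, 2 * (σ * Lam σ (X ^ i) * ‖cf i (e 0)‖ ^ 2) := by
          apply Finset.sum_le_sum
          intro i _
          have h2 := pow_low hr.1 hr.2 hσ0 hσ1 i
          have h3 := mom_pos hσ0 i
          have h4 : (1 + σ) * (σ * Lam σ (X ^ i)) ≤ 2 * (σ * Lam σ (X ^ i)) := by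
            apply mul_le_mul_of_nonneg_right (by linarith) (by positivity)
          calc r ^ i * ‖cf i (e 0)‖ ^ 2 * (1 - r) ^ σ = (r ^ i * (1 - r) ^ σ) * ‖cf i (e 0)‖ ^ 2 := by
                ring
            _ ≤ (2 * (σ * Lam σ (X ^ i))) * ‖cf i (e 0)‖ ^ 2 :=
                mul_le_mul_of_nonneg_right (h2.trans h4) (sq_nonneg _)
            _ = _ := by ring
      _ = 2 * ∑ i ∈ Finset.range M, σ * Lam σ (X ^ i) * ‖cf i (e 0)‖ ^ 2 := by rw [Finset.mul_sum]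
      _ ≤ 2 * K := by linarith [hpart M]
  -- the integral
  have hcc : Continuous fun t : ℝ => e 0 (circleMap 0 ρ t) :=
    (hed 0).continuousOn.comp_continuous (continuous_circleMap 0 ρ) fun t => hwb _ (hcirc t)
  have hcc2 : Continuous fun t : ℝ => (starRingEnd ℂ) (e 0 (circleMap 0 ρ t)) *
      e 0 (circleMap 0 ρ t) := (Complex.continuous_conj.comp hcc).mul hcc
  have hcc3 : IntervalIntegrable (fun t : ℝ => (starRingEnd ℂ) (e 0 (circleMap 0 ρ t)) *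
      e 0 (circleMap 0 ρ t)) volume 0 (2 * Real.pi) := hcc2.intervalIntegrable _ _
  have hre : (∫ t in (0:ℝ)..(2 * Real.pi), (starRingEnd ℂ) (e 0 (circleMap 0 ρ t)) *
        e 0 (circleMap 0 ρ t)).re = ∫ t in (0:ℝ)..(2 * Real.pi),
        ‖Complex.exp (s * H (circleMap 0 r t))‖ ^ 2 := by
    refine (Complex.reCLM.intervalIntegral_comp_comm hcc3).symm.trans ?_
    apply intervalIntegral.integral_congr
    intro t _
    show ((starRingEnd ℂ) (e 0 (circleMap 0 ρ t)) * e 0 (circleMap 0 ρ t)).re =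
      ‖Complex.exp (s * H (circleMap 0 r t))‖ ^ 2
    rw [← Complex.normSq_eq_conj_mul_self, Complex.ofReal_re, Complex.normSq_eq_norm_sq, he,
      ee_zero S L hρ0 θ s (hwb _ (hcirc t))]
    have e1 : (ρ : ℂ) * circleMap 0 ρ t = circleMap 0 r t := by
      rw [← hρ2]
      unfold circleMap
      push_cast
      ring
    rw [e1]
  rw [hre] at hle
  have hπ : 0 < 2 * Real.pi := by positivity
  have h9 := mul_le_mul_of_nonneg_left hle hπ.le
  refine le_trans (le_of_eq ?_) h9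
  field_simp

end Pool.Agent.W5h41.MA
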