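import Mathlib

set_option autoImplicit false

/-! # The quadratic form of one degree -/

namespace Pool.Agent.W5h41.MA

open Polynomial MeasureTheory Set

/-- integration against the weight `(1 - x) ^ (σ - 1)` -/
noncomputable def Lam (σ : ℝ) (R : ℝ[X]) : ℝ := ∫ x in (0:ℝ)..1, R.eval x * (1 - x) ^ (σ - 1)

theorem wt_int {σ : ℝ} (hσ : 0 < σ) :
    IntervalIntegrable (fun x : ℝ => (1 - x) ^ (σ - 1)) volume 0 1 := by
  have h := intervalIntegral.intervalIntegrable_rpow' (a := 0) (b := 1) (r := σ - 1) (by linarith)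
  have h2 := h.comp_sub_left 1
  simpa using h2.symm

theorem Lam_int {σ : ℝ} (hσ : 0 < σ) (R : ℝ[X]) :
    IntervalIntegrable (fun x : ℝ => R.eval x * (1 - x) ^ (σ - 1)) volume 0 1 :=
  (wt_int hσ).continuousOn_mul R.continuous.continuousOn

theorem Lam_add {σ : ℝ} (hσ : 0 < σ) (R S : ℝ[X]) : Lam σ (R + S) = Lam σ R + Lam σ S := by
  unfold Lam
  rw [← intervalIntegral.integral_add (Lam_int hσ R) (Lam_int hσ S)]
  congr 1
  funext x
  rw [eval_add]
  ring

theorem Lam_C_mul (σ : ℝ) (c : ℝ) (R : ℝ[X]) : Lam σ (C c * R) = c * Lam σ R := by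
  unfold Lam
  rw [← intervalIntegral.integral_const_mul]
  congr 1
  funext x
  rw [eval_mul, eval_C]
  ring

theorem Lam_neg (σ : ℝ) (R : ℝ[X]) : Lam σ (-R) = -Lam σ R := by
  have := Lam_C_mul σ (-1) R
  rw [neg_one_mul, C_neg, C_1, neg_one_mul] at this
  exact this

theorem Lam_sub {σ : ℝ} (hσ : 0 < σ) (R S : ℝ[X]) : Lam σ (R - S) = Lam σ R - Lam σ S := by
  rw [sub_eq_add_neg, Lam_add hσ, Lam_neg]
  ring

theorem Lam_nonneg {σ : ℝ} {R : ℝ[X]} (h : ∀ x ∈ Icc (0:ℝ) 1, 0 ≤ R.eval x) :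
    0 ≤ Lam σ R := by
  apply intervalIntegral.integral_nonneg zero_le_one
  intro x hx
  exact mul_nonneg (h x hx) (Real.rpow_nonneg (by linarith [hx.2]) _)

theorem Lam_pos {σ : ℝ} (hσ : 0 < σ) {R : ℝ[X]} (h : ∀ x ∈ Ioo (0:ℝ) 1, 0 < R.eval x) :
    0 < Lam σ R := by
  apply intervalIntegral.intervalIntegral_pos_of_pos_on (Lam_int hσ R) _ one_pos
  intro x hx
  exact mul_pos (h x hx) (Real.rpow_pos_of_pos (by linarith [hx.2]) _)

/-- integration by parts -/
theorem Lam_parts {σ : ℝ} (hσ : 0 < σ) {R : ℝ[X]} (h0 : R.eval 0 = 0) :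
    Lam σ ((1 - X) * derivative R - C σ * R) = 0 := by
  have h1 : ∫ x in (0:ℝ)..1, ((1 - X) * derivative R - C σ * R).eval x * (1 - x) ^ (σ - 1) =
      R.eval 1 * (1 - 1) ^ σ - R.eval 0 * (1 - 0) ^ σ := by
    apply intervalIntegral.integral_eq_sub_of_hasDerivAt_of_le (f := fun x => R.eval x * (1 - x) ^ σ)
      zero_le_one
    · apply R.continuous.continuousOn.mul
      apply ContinuousOn.rpow_const (by fun_prop)
      intro x _
      right
      exact hσ.le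
    · intro x hx
      have hx1 : (0:ℝ) < 1 - x := by linarith [hx.2]
      have h2 : HasDerivAt (fun x : ℝ => (1 - x) ^ σ) (σ * (1 - x) ^ (σ - 1) * (-1)) x := by
        have h3 : HasDerivAt (fun x : ℝ => 1 - x) (-1) x := by
          simpa using (hasDerivAt_id x).const_sub 1
        have := h3.rpow_const (p := σ) (Or.inl hx1.ne')
        refine this.congr_deriv ?_
        ring
      have h4 := (R.hasDerivAt x).mul h2
      refine h4.congr_deriv ?_
      have h5 : (1 - x) ^ σ = (1 - x) * (1 - x) ^ (σ - 1) := by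
        rw [← Real.rpow_one_add' hx1.le (by simpa using hσ.ne')]
        congr 1
        ring
      rw [h5]
      simp only [eval_sub, eval_mul, eval_one, eval_X, eval_C]
      ring
    · exact Lam_int hσ _
  unfold Lam
  rw [h1, h0, sub_self, Real.zero_rpow hσ.ne']
  ring

/-- the lowering operator on level `n` -/
noncomputable def DD (n : ℝ) (P : ℝ[X]) : ℝ[X] := (1 - X) * derivative P + C n * P

/-- the raising operator from level `n - 1` to level `n` -/
noncomputable def AA (σ m n : ℝ) (U : ℝ[X]) : ℝ[X] :=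
  C (n + σ) * (X * U) - (1 - X) * (C (m - n + 1) * U + X * derivative U)

theorem DD_AA (σ m n : ℝ) (U : ℝ[X]) :
    DD n (AA σ m n U) = AA σ m (n - 1) (DD (n - 1) U) + C (2 * n - 1 + σ) * U := by
  unfold DD AA
  simp only [derivative_sub, derivative_mul, derivative_add, derivative_X, derivative_C,
    derivative_one, C_add, C_sub, C_mul, C_1, C_ofNat]
  ring

/-- the bilinear form -/
noncomputable def ip (σ : ℝ) (j : ℕ) (U V : ℝ[X]) : ℝ := Lam σ (X ^ j * (U * V))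

theorem ip_comm (σ : ℝ) (j : ℕ) (U V : ℝ[X]) : ip σ j U V = ip σ j V U := by
  unfold ip
  rw [mul_comm U V]

theorem ip_C_left (σ : ℝ) (j : ℕ) (c : ℝ) (U V : ℝ[X]) : ip σ j (C c * U) V = c * ip σ j U V := by
  unfold ip
  rw [← Lam_C_mul]
  congr 1
  ring

theorem ip_C_right (σ : ℝ) (j : ℕ) (c : ℝ) (U V : ℝ[X]) : ip σ j U (C c * V) = c * ip σ j U V := by
  rw [ip_comm, ip_C_left, ip_comm]

theorem ip_add_left {σ : ℝ} (hσ : 0 < σ) (j : ℕ) (U U' V : ℝ[X]) :
    ip σ j (U + U') V = ip σ j U V + ip σ j U' V := by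
  unfold ip
  rw [← Lam_add hσ]
  congr 1
  ring

theorem ip_sub_left {σ : ℝ} (hσ : 0 < σ) (j : ℕ) (U U' V : ℝ[X]) :
    ip σ j (U - U') V = ip σ j U V - ip σ j U' V := by
  unfold ip
  rw [← Lam_sub hσ]
  congr 1
  ring

theorem ip_sub_right {σ : ℝ} (hσ : 0 < σ) (j : ℕ) (U V V' : ℝ[X]) :
    ip σ j U (V - V') = ip σ j U V - ip σ j U V' := by
  rw [ip_comm, ip_sub_left hσ, ip_comm, ip_comm σ j V']

theorem ip_self (σ : ℝ) (j : ℕ) (U : ℝ[X]) : 0 ≤ ip σ j U U := by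
  apply Lam_nonneg
  intro x hx
  rw [eval_mul, eval_pow, eval_X, eval_mul]
  exact mul_nonneg (pow_nonneg hx.1 _) (mul_self_nonneg _)

/-- the operators are adjoint -/
theorem adj {σ : ℝ} (hσ : 0 < σ) {m n : ℕ} (hn : 1 ≤ n) (hnm : n ≤ m) (P U : ℝ[X]) :
    ip σ (m - n + 1) (DD n P) U = ip σ (m - n) P (AA σ m n U) := by
  obtain ⟨j, hj⟩ : ∃ j, m = n + j := ⟨m - n, by omega⟩
  have e1 : m - n = j := by omega
  rw [e1, ← sub_eq_zero]
  have hp := Lam_parts hσ (R := X ^ (j + 1) * (P * U)) (by simp)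
  unfold ip
  rw [← Lam_sub hσ, ← hp]
  congr 1
  unfold DD AA
  rw [hj]
  simp only [derivative_mul, derivative_X_pow, C_add, C_sub, C_1, Nat.cast_add, Nat.cast_one,
    Nat.add_sub_cancel]
  ring

/-- the raised sequences -/
noncomputable def W (σ m : ℝ) (l : ℕ) (U : ℝ[X]) : ℕ → ℝ[X]
  | 0 => U
  | k + 1 => AA σ m (l + k + 1) (W σ m l U k)

theorem DD_W {σ m : ℝ} {l : ℕ} {U : ℝ[X]} (hU : DD l U = 0) (k : ℕ) :
    DD (l + k + 1) (W σ m l U (k + 1)) = C ((k + 1) * (2 * l + k + 1 + σ)) * W σ m l U k := by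
  induction k with
  | zero =>
    show DD (l + (0:ℕ) + 1) (AA σ m (l + (0:ℕ) + 1) U) = _
    rw [DD_AA]
    have e : (l : ℝ) + (0 : ℕ) + 1 - 1 = l := by push_cast; ring
    rw [e, hU]
    have e2 : AA σ m l (0 : ℝ[X]) = 0 := by unfold AA; simp
    rw [e2, zero_add]
    congr 2
    push_cast
    ring
  | succ k ih =>
    show DD (l + (k + 1 : ℕ) + 1) (AA σ m (l + (k + 1 : ℕ) + 1) (W σ m l U (k + 1))) = _
    rw [DD_AA]
    have e : (l : ℝ) + ((k + 1 : ℕ) : ℝ) + 1 - 1 = l + k + 1 := by push_cast; ring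
    rw [e, ih]
    have e2 : ∀ (c : ℝ) (V : ℝ[X]), AA σ m (l + k + 1) (C c * V) = C c * AA σ m (l + k + 1) V := by
      intro c V
      unfold AA
      simp only [derivative_mul, derivative_C]
      ring
    rw [e2]
    show C _ * W σ m l U (k + 1) + _ = _
    rw [← add_mul, ← C_add]
    congr 2
    push_cast
    ring

theorem W_norm {σ : ℝ} (hσ : 0 < σ) {m l : ℕ} {U : ℝ[X]} (hU : DD l U = 0) {k : ℕ}
    (hk : l + k + 1 ≤ m) :
    ip σ (m - (l + k + 1)) (W σ m l U (k + 1)) (W σ m l U (k + 1)) =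
      ((k + 1) * (2 * l + k + 1 + σ)) * ip σ (m - (l + k)) (W σ m l U k) (W σ m l U k) := by
  have h1 := adj hσ (m := m) (n := l + k + 1) (by omega) hk (W σ m l U (k + 1)) (W σ m l U k)
  have e : m - (l + k + 1) + 1 = m - (l + k) := by omega
  rw [e] at h1
  push_cast at h1
  rw [DD_W hU, ip_C_left] at h1
  exact h1.symm

theorem W_ip {σ : ℝ} (hσ : 0 < σ) {m l : ℕ} {θ : ℝ} {U : ℝ[X]} {P : ℕ → ℝ[X]} {k : ℕ}
    (hk : l + k + 1 ≤ m)
    (hP : DD (l + k + 1) (P (l + k + 1)) = C (-(l + k - θ)) * P (l + k)) :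
    ip σ (m - (l + k + 1)) (P (l + k + 1)) (W σ m l U (k + 1)) =
      -(l + k - θ) * ip σ (m - (l + k)) (P (l + k)) (W σ m l U k) := by
  have h1 := adj hσ (m := m) (n := l + k + 1) (by omega) hk (P (l + k + 1)) (W σ m l U k)
  have e : m - (l + k + 1) + 1 = m - (l + k) := by omega
  rw [e] at h1
  push_cast at h1
  rw [hP, ip_C_left] at h1
  exact h1.symm

/-- products -/
noncomputable def nr (σ : ℝ) (l : ℕ) (k : ℕ) : ℝ :=
  ∏ i ∈ Finset.range k, (((i : ℝ) + 1) * (2 * l + i + 1 + σ))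

noncomputable def pr (θ : ℝ) (l : ℕ) (k : ℕ) : ℝ := ∏ i ∈ Finset.range k, (-((l : ℝ) + i - θ))

theorem nr_pos {σ : ℝ} (hσ : 0 < σ) (l k : ℕ) : 0 < nr σ l k :=
  Finset.prod_pos fun i _ => by positivity

theorem W_norm' {σ : ℝ} (hσ : 0 < σ) {m l : ℕ} {U : ℝ[X]} (hU : DD l U = 0) :
    ∀ k : ℕ, l + k ≤ m → ip σ (m - (l + k)) (W σ m l U k) (W σ m l U k) =
      nr σ l k * ip σ (m - l) U U
  | 0, _ => by simp [nr, W]
  | k + 1, hk => by
    have h1 := W_norm hσ hU (k := k) (m := m) (by omega)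
    have h2 := W_norm' hσ hU k (m := m) (by omega)
    rw [← add_assoc, h1, h2]
    unfold nr
    rw [Finset.prod_range_succ]
    ring

theorem W_ip' {σ : ℝ} (hσ : 0 < σ) {m l : ℕ} {θ : ℝ} {U : ℝ[X]} {P : ℕ → ℝ[X]} {N : ℕ}
    (hP : ∀ n : ℕ, n < N → DD (n + 1) (P (n + 1)) = C (-(n - θ)) * P n) :
    ∀ k : ℕ, l + k ≤ m → l + k ≤ N → ip σ (m - (l + k)) (P (l + k)) (W σ m l U k) =
      pr θ l k * ip σ (m - l) (P l) U
  | 0, _, _ => by simp [pr, W]
  | k + 1, hk, hkN => by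
    have h0 := hP (l + k) (by omega)
    push_cast at h0
    have h1 := W_ip hσ (m := m) (U := U) (k := k) (l := l) (θ := θ) (P := P) (by omega) h0
    have h2 := W_ip' hσ hP k (m := m) (l := l) (U := U) (by omega) (by omega)
    rw [← add_assoc, h1, h2]
    unfold pr
    rw [Finset.prod_range_succ]
    ring

/-- the two sequences are orthogonal -/
theorem orth {σ : ℝ} (hσ : 0 < σ) {m : ℕ} {U V : ℝ[X]} (hU : DD (0 : ℕ) U = 0)
    (hV : DD (1 : ℕ) V = 0) :
    ∀ k : ℕ, k + 1 ≤ m → ip σ (m - (k + 1)) (W σ m 0 U (k + 1)) (W σ m 1 V k) = 0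
  | 0, hk => by
    have h1 := adj hσ (m := m) (n := 1) (le_refl _) (by omega) V U
    rw [hV] at h1
    have e : ip σ (m - 1 + 1) 0 U = 0 := by
      have := ip_C_left σ (m - 1 + 1) 0 0 U
      simpa using this
    rw [e, ip_comm] at h1
    show ip σ (m - (0 + 1)) (AA σ m ((0:ℕ) + (0:ℕ) + 1) U) V = 0
    rw [zero_add, h1]
    congr 2
    push_cast
    ring
  | k + 1, hk => by
    have h1 := adj hσ (m := m) (n := k + 2) (by omega) (by omega) (W σ m 0 U (k + 2)) (W σ m 1 V k)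
    have e : m - (k + 2) + 1 = m - (k + 1) := by omega
    rw [e] at h1
    have h2 := DD_W (σ := σ) (m := m) hU (k + 1)
    have e3 : ((0 : ℕ) : ℝ) + ((k + 1 : ℕ) : ℝ) + 1 = ((k + 2 : ℕ) : ℝ) := by push_cast; ring
    rw [e3] at h2
    rw [h2, ip_C_left, orth hσ hU hV k (by omega), mul_zero] at h1
    show ip σ (m - (k + 2)) (W σ m 0 U (k + 2)) (AA σ m ((1:ℕ) + k + 1) (W σ m 1 V k)) = 0
    have e4 : ((1 : ℕ) : ℝ) + k + 1 = ((k + 2 : ℕ) : ℝ) := by push_cast; ring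
    rw [e4, ← h1]

/-- Bessel's inequality for two orthogonal vectors -/
theorem bessel {σ : ℝ} (hσ : 0 < σ) (j : ℕ) (p u v : ℝ[X]) (hu : 0 < ip σ j u u)
    (hv : 0 < ip σ j v v) (huv : ip σ j u v = 0) :
    ip σ j p u ^ 2 / ip σ j u u + ip σ j p v ^ 2 / ip σ j v v ≤ ip σ j p p := by
  set a := ip σ j p u / ip σ j u u with ha
  set b := ip σ j p v / ip σ j v v with hb
  have h := ip_self σ j (p - C a * u - C b * v)
  simp only [ip_sub_left hσ, ip_sub_right hσ, ip_C_left, ip_C_right] at h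
  rw [ip_comm σ j v u, huv, ip_comm σ j u p, ip_comm σ j v p] at h
  have h1 : a * ip σ j u u = ip σ j p u := by rw [ha]; field_simp
  have h2 : b * ip σ j v v = ip σ j p v := by rw [hb]; field_simp
  have h3 : ip σ j p u ^ 2 / ip σ j u u = a * ip σ j p u := by rw [ha]; ring
  have h4 : ip σ j p v ^ 2 / ip σ j v v = b * ip σ j p v := by rw [hb]; ring
  rw [h3, h4]
  have h5 : a * (a * ip σ j u u) = a * ip σ j p u := by rw [h1]
  have h6 : b * (b * ip σ j v v) = b * ip σ j p v := by rw [h2]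
  nlinarith [h, h5, h6]

/-- the coefficients of the lower bound -/
noncomputable def cE (σ θ : ℝ) (k : ℕ) : ℝ := pr θ 0 k ^ 2 / nr σ 0 k
noncomputable def cF (σ θ : ℝ) (k : ℕ) : ℝ := pr θ 1 k ^ 2 / nr σ 1 k

theorem DD_one : DD ((0 : ℕ) : ℝ) 1 = 0 := by unfold DD; simp

theorem DD_F : DD ((1 : ℕ) : ℝ) (1 - X) = 0 := by
  unfold DD
  simp

/-- **Lower bound of the form of one degree.** -/
theorem lower {σ θ : ℝ} (hσ : 0 < σ) (hθ0 : 0 < θ) (hθ1 : θ < 1) {m N : ℕ} (hN : 1 ≤ N)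
    (hm : N ≤ m) {P : ℕ → ℝ[X]} {g e : ℝ} (h0 : P 0 = C g)
    (h1 : P 1 = C (θ * g) * X + C e * (1 - X))
    (hP : ∀ n : ℕ, n < N → DD (n + 1) (P (n + 1)) = C (-(n - θ)) * P n) :
    (∑ n ∈ Finset.range (N + 1), ((n : ℝ) - θ) * cE σ θ n) * (g ^ 2 * Lam σ (X ^ m)) +
      (∑ k ∈ Finset.range N, ((k : ℝ) + 1 - θ) * cF σ θ k) *
        ((e + θ * m * g / (1 + σ)) ^ 2 * Lam σ (X ^ (m - 1) * (1 - X) ^ 2)) ≤
      ∑ n ∈ Finset.range (N + 1), ((n : ℝ) - θ) * ip σ (m - n) (P n) (P n) := by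
  set I := Lam σ (X ^ m) with hI
  set J := Lam σ (X ^ (m - 1) * (1 - X) ^ 2) with hJ
  have hIp : 0 < I := by
    apply Lam_pos hσ
    intro x hx
    rw [eval_pow, eval_X]
    exact pow_pos hx.1 _
  have hJp : 0 < J := by
    apply Lam_pos hσ
    intro x hx
    rw [eval_mul, eval_pow, eval_X, eval_pow, eval_sub, eval_one, eval_X]
    exact mul_pos (pow_pos hx.1 _) (pow_pos (by linarith [hx.2]) _)
  have hEE : ip σ (m - 0) 1 1 = I := by unfold ip; rw [hI]; simp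
  have hFF : ip σ (m - 1) (1 - X) (1 - X) = J := by
    unfold ip; rw [hJ]; congr 1; ring
  have hPE : ip σ (m - 0) (P 0) 1 = g * I := by
    rw [h0, ← mul_one (C g), ip_C_left, hEE]
  have hXF : ((m : ℝ)) * J = (1 + σ) * Lam σ (X ^ m * (1 - X)) := by
    obtain ⟨j, hj⟩ : ∃ j, m = j + 1 := ⟨m - 1, by omega⟩
    have hp := Lam_parts hσ (R := X ^ m * (1 - X)) (by rw [hj]; simp)
    have e1 : (1 - X) * derivative (X ^ m * (1 - X)) - C σ * (X ^ m * (1 - X)) =
        C (m : ℝ) * (X ^ (m - 1) * (1 - X) ^ 2) - C (1 + σ) * (X ^ m * (1 - X)) := by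
      rw [hj]
      simp only [derivative_mul, derivative_X_pow, derivative_sub, derivative_one, derivative_X,
        C_add, C_1, Nat.add_sub_cancel]
      ring
    rw [e1, Lam_sub hσ, Lam_C_mul, Lam_C_mul] at hp
    linarith
  have hPF : ip σ (m - 1) (P 1) (1 - X) = (e + θ * m * g / (1 + σ)) * J := by
    rw [h1, ip_add_left hσ, ip_C_left, ip_C_left, hFF]
    have e2 : ip σ (m - 1) X (1 - X) = Lam σ (X ^ m * (1 - X)) := by
      unfold ip
      congr 1
      obtain ⟨j, hj⟩ : ∃ j, m = j + 1 := ⟨m - 1, by omega⟩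
      rw [hj, Nat.add_sub_cancel]
      ring
    rw [e2]
    have h3 : Lam σ (X ^ m * (1 - X)) = m * J / (1 + σ) := by
      rw [hXF]
      field_simp
    rw [h3]
    field_simp
    ring
  -- level by level
  have hlev : ∀ k : ℕ, k < N → cE σ θ (k + 1) * (g ^ 2 * I) +
      cF σ θ k * ((e + θ * m * g / (1 + σ)) ^ 2 * J) ≤
      ip σ (m - (k + 1)) (P (k + 1)) (P (k + 1)) := by
    intro k hk
    have n1 := W_norm' hσ (m := m) (l := 0) DD_one (k + 1) (by omega)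
    have n2 := W_norm' hσ (m := m) (l := 1) DD_F k (by omega)
    have i1 := W_ip' hσ (m := m) (l := 0) (U := 1) hP (k + 1) (by omega) (by omega)
    have i2 := W_ip' hσ (m := m) (l := 1) (U := 1 - X) hP k (by omega) (by omega)
    rw [zero_add, hEE] at n1
    rw [zero_add, hPE] at i1
    rw [add_comm 1 k, hFF] at n2
    rw [add_comm 1 k, hPF] at i2
    have hb := bessel hσ (m - (k + 1)) (P (k + 1)) (W σ m 0 1 (k + 1)) (W σ m 1 (1 - X) k)
      (by rw [n1]; exact mul_pos (nr_pos hσ _ _) hIp)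
      (by rw [n2]; exact mul_pos (nr_pos hσ _ _) hJp)
      (orth hσ DD_one DD_F k (by omega))
    rw [n1, n2, i1, i2] at hb
    refine le_trans (le_of_eq ?_) hb
    have := nr_pos hσ 0 (k + 1)
    have := nr_pos hσ 1 k
    unfold cE cF
    field_simp
  rw [Finset.sum_range_succ' (fun n : ℕ => ((n : ℝ) - θ) * ip σ (m - n) (P n) (P n)),
    Finset.sum_range_succ' (fun n : ℕ => ((n : ℝ) - θ) * cE σ θ n)]
  have hz : ((0 : ℕ) : ℝ) - θ = -θ := by push_cast; ring
  have hP0 : ip σ (m - 0) (P 0) (P 0) = g ^ 2 * I := by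
    rw [h0, ← mul_one (C g), ip_C_left, ip_C_right, hEE]
    ring
  have hc0 : cE σ θ 0 = 1 := by unfold cE pr nr; simp
  rw [hP0, hc0, add_mul]
  have hsum : (∑ k ∈ Finset.range N, (((k + 1 : ℕ) : ℝ) - θ) * cE σ θ (k + 1)) * (g ^ 2 * I) +
      (∑ k ∈ Finset.range N, ((k : ℝ) + 1 - θ) * cF σ θ k) *
        ((e + θ * m * g / (1 + σ)) ^ 2 * J) ≤
      ∑ k ∈ Finset.range N, (((k + 1 : ℕ) : ℝ) - θ) * ip σ (m - (k + 1)) (P (k + 1)) (P (k + 1)) := by
    rw [Finset.sum_mul, Finset.sum_mul, ← Finset.sum_add_distrib]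
    apply Finset.sum_le_sum
    intro k hk
    have h2 := hlev k (Finset.mem_range.1 hk)
    have h3 : (0 : ℝ) ≤ ((k + 1 : ℕ) : ℝ) - θ := by
      push_cast
      have : (0 : ℝ) ≤ k := Nat.cast_nonneg k
      linarith
    have h4 := mul_le_mul_of_nonneg_left h2 h3
    refine le_trans (le_of_eq ?_) h4
    push_cast
    ring
  linarith [hsum]

end Pool.Agent.W5h41.MA
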