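import Pool.Agent.H64.G.T9f66d723.W5h41.MA9

set_option autoImplicit false

/-! # The quadratic inequality for the Taylor coefficients -/

namespace Pool.Agent.W5h41.MA

open Complex Metric Set Filter Topology MeasureTheory
open Pool.Agent.W677.Mar

variable {Y H : ℂ → ℂ} {f : ℂ × ℂ → ℂ}

theorem pars {h : ℂ → ℂ} {b : ℕ → ℂ} {r : ℝ} (hr : 0 ≤ r)
    (hs : ∀ z : ℂ, ‖z‖ = r → HasSum (fun j => b j * z ^ j) (h z)) :
    HasSum (fun j => (r ^ 2) ^ j * ‖b j‖ ^ 2)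
      ((2 * Real.pi)⁻¹ * (∫ t in (0:ℝ)..(2 * Real.pi), (starRingEnd ℂ) (h (circleMap 0 r t)) *
        h (circleMap 0 r t)).re) := by
  have hsum : Summable fun j => ‖b j‖ * r ^ j := by
    have h1 := (hs (r : ℂ) (by rw [Complex.norm_real, Real.norm_of_nonneg hr])).summable.norm
    refine h1.congr fun j => ?_
    rw [norm_mul, norm_pow, Complex.norm_real, Real.norm_of_nonneg hr]
  have p0 := Complex.hasSum_re (Pool.Agent.Helper405.Area.parseval hr hsum hsum hs hs)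
  have e0 : ∀ j : ℕ, ((starRingEnd ℂ) (b j) * b j * ((r ^ (2 * j) : ℝ) : ℂ)).re =
      (r ^ 2) ^ j * ‖b j‖ ^ 2 := by
    intro j
    rw [← Complex.normSq_eq_conj_mul_self, ← Complex.ofReal_mul, Complex.ofReal_re,
      Complex.normSq_eq_norm_sq, pow_mul]
    ring
  simp only [e0] at p0
  rw [show (2 * Real.pi : ℂ)⁻¹ = (((2 * Real.pi)⁻¹ : ℝ) : ℂ) by push_cast; ring,
    Complex.re_ofReal_mul] at p0
  exact p0

/-- shifted coefficients -/
theorem shift_hasSum {a : ℕ → ℂ} {e w : ℂ} (h : HasSum (fun m => a m * w ^ m) e) (i : ℕ) :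
    HasSum (fun m => (if i ≤ m then a (m - i) else 0) * w ^ m) (w ^ i * e) := by
  have h1 := h.mul_left (w ^ i)
  have h3 := (hasSum_nat_add_iff' (f := fun m => (if i ≤ m then a (m - i) else 0) * w ^ m)
      (g := w ^ i * e) i)
  have h4 : ∑ j ∈ Finset.range i, (if i ≤ j then a (j - i) else 0) * w ^ j = 0 := by
    apply Finset.sum_eq_zero
    intro j hj
    rw [Finset.mem_range] at hj
    rw [if_neg (by omega), zero_mul]
  rw [h4, sub_zero] at h3
  apply h3.1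
  have h5 : (fun m => (if i ≤ m + i then a (m + i - i) else 0) * w ^ (m + i)) =
      fun m => w ^ i * (a m * w ^ m) := by
    funext m
    rw [if_pos (by omega), Nat.add_sub_cancel, pow_add]
    ring
  rw [h5]
  exact h1

/-- the functions `h n` -/
noncomputable def hh (θ x : ℝ) (e : ℕ → ℂ → ℂ) (n : ℕ) (w : ℂ) : ℂ :=
  ∑ i ∈ Finset.range (n + 1), ((bn θ i (n - i) * (x ^ (n - i) * (1 - x) ^ i) : ℝ) : ℂ) *
    (w ^ i * e i w)

theorem hh_hasSum {θ x R : ℝ} {e : ℕ → ℂ → ℂ} (he : ∀ k, DifferentiableOn ℂ (e k) (ball 0 R))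
    (n : ℕ) {w : ℂ} (hw : w ∈ ball (0 : ℂ) R) :
    HasSum (fun m => (∑ i ∈ Finset.range (n + 1),
      ((bn θ i (n - i) * (x ^ (n - i) * (1 - x) ^ i) : ℝ) : ℂ) *
      (if i ≤ m then cf (m - i) (e i) else 0)) * w ^ m) (hh θ x e n w) := by
  have h1 := hasSum_sum (s := Finset.range (n + 1)) (f := fun i m =>
    ((bn θ i (n - i) * (x ^ (n - i) * (1 - x) ^ i) : ℝ) : ℂ) *
      ((if i ≤ m then cf (m - i) (e i) else 0) * w ^ m)) (fun i _ =>
      (shift_hasSum (cf_hasSum (he i) hw) i).mul_left _)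
  have h2 : (fun m => (∑ i ∈ Finset.range (n + 1),
      ((bn θ i (n - i) * (x ^ (n - i) * (1 - x) ^ i) : ℝ) : ℂ) *
      (if i ≤ m then cf (m - i) (e i) else 0)) * w ^ m) = fun m => ∑ i ∈ Finset.range (n + 1),
    ((bn θ i (n - i) * (x ^ (n - i) * (1 - x) ^ i) : ℝ) : ℂ) *
      ((if i ≤ m then cf (m - i) (e i) else 0) * w ^ m) := by
    funext m
    rw [Finset.sum_mul]
    apply Finset.sum_congr rfl
    intro i _
    ring
  rw [h2]
  exact h1

theorem hh_diff {θ x R : ℝ} {e : ℕ → ℂ → ℂ} (he : ∀ k, DifferentiableOn ℂ (e k) (ball 0 R))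
    (n : ℕ) : DifferentiableOn ℂ (hh θ x e n) (ball 0 R) := by
  unfold hh
  apply DifferentiableOn.fun_sum
  intro i _
  exact ((differentiableOn_id.fun_pow i).fun_mul (he i)).const_mul _

/-- the pointwise inequality -/
theorem pointwise (S : Sg Y H) (L : Lg Y f) {ρ θ : ℝ} (hρ0 : 0 < ρ) (hρ1 : ρ < 1) (hθ0 : 0 < θ)
    (hθ1 : θ < 1) (s : ℂ) {x : ℝ} (hx : x ∈ Ioo (0:ℝ) 1) {w : ℂ} (hw : ‖w‖ ^ 2 = x) (N : ℕ) :
    ∑ n ∈ Finset.range N, ((n : ℝ) + 1 - θ) * ((x ^ (n + 1))⁻¹ *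
      ‖hh θ x (ee θ ρ s H f) (n + 1) w‖ ^ 2) ≤ θ * ‖ee θ ρ s H f 0 w‖ ^ 2 := by
  have hw0 : w ≠ 0 := by
    intro h
    rw [h, norm_zero] at hw
    have := hx.1
    rw [← hw] at this
    simp at this
  have hw1 : ‖w‖ < 1 := by
    have h1 := hx.2
    rw [← hw] at h1
    have := norm_nonneg w
    nlinarith
  have hR0 : 1 < ρ⁻¹ := (one_lt_inv₀ hρ0).2 hρ1
  have hwb : w ∈ ball (0 : ℂ) ρ⁻¹ := by
    rw [mem_ball_zero_iff]; linarith
  set F : ℂ → ℂ := fun v => FF θ ρ f (w, v) with hF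
  have hFd : DifferentiableOn ℂ F (ball 0 ρ⁻¹) := by
    have : DifferentiableOn ℂ (fun v : ℂ => (w, v)) (ball 0 ρ⁻¹) :=
      (differentiableOn_const w).prodMk differentiableOn_id
    exact (FF_joint S L hρ0 θ).comp this fun v hv => ⟨hwb, hv⟩
  obtain ⟨r1, hr1, hr⟩ := exists_r1 hR0 hw1
  have hCd : DifferentiableOn ℂ (Cw θ F w) (ball 0 r1) := by
    rw [← CC_zero_eq]
    exact CC_diff hFd hr 0
  have hm := moeb S L hρ0 hρ1 hθ0.le hw0 hw1 (F := F) (fun v => rfl) (C := Cw θ F w) rfl hr1 hCd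
  have ha := area_coeff hθ1 hr1 hCd hm N
  -- the connection
  have hconj : (starRingEnd ℂ) w * w = (x : ℂ) := by
    rw [← Complex.normSq_eq_conj_mul_self, Complex.normSq_eq_norm_sq, hw]
  have hcn : ∀ n, hh θ x (ee θ ρ s H f) n w = w ^ n * (Complex.exp ((θ + s) * H (ρ * w)) *
      cf n (Cw θ F w)) := by
    intro n
    rw [Cw_cf hR0 hFd hw1, hw]
    unfold hh
    rw [Finset.mul_sum, Finset.mul_sum]
    apply Finset.sum_congr rfl
    intro i hi
    have hi' : i ≤ n := Nat.lt_succ_iff.1 (Finset.mem_range.1 hi)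
    obtain ⟨l, rfl⟩ : ∃ l, n = i + l := ⟨n - i, by omega⟩
    have g1 : i + l - i = l := by omega
    rw [g1]
    unfold ee
    have e1 : (x : ℂ) ^ l = (starRingEnd ℂ) w ^ l * w ^ l := by
      rw [← mul_pow, hconj]
    push_cast
    rw [e1, pow_add]
    ring
  have hx0 := hx.1
  have hnn : ∀ n, (x ^ n)⁻¹ * ‖hh θ x (ee θ ρ s H f) n w‖ ^ 2 =
      ‖Complex.exp ((θ + s) * H (ρ * w))‖ ^ 2 * ‖cf n (Cw θ F w)‖ ^ 2 := by
    intro n
    rw [hcn, norm_mul, norm_mul, norm_pow, mul_pow, mul_pow, ← pow_mul, mul_comm n 2, pow_mul, hw,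
      inv_mul_cancel_left₀ (pow_pos hx0 n).ne']
  have h0 : ‖ee θ ρ s H f 0 w‖ ^ 2 = ‖Complex.exp ((θ + s) * H (ρ * w))‖ ^ 2 *
      ‖cf 0 (Cw θ F w)‖ ^ 2 := by
    have := hnn 0
    rw [pow_zero, inv_one, one_mul] at this
    rw [← this]
    unfold hh
    simp [bn_zero]
  rw [h0]
  simp only [hnn]
  have hG : 0 ≤ ‖Complex.exp ((θ + s) * H (ρ * w))‖ ^ 2 := sq_nonneg _
  calc ∑ n ∈ Finset.range N, ((n : ℝ) + 1 - θ) * (‖Complex.exp ((θ + s) * H (ρ * w))‖ ^ 2 *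
        ‖cf (n + 1) (Cw θ F w)‖ ^ 2) = ‖Complex.exp ((θ + s) * H (ρ * w))‖ ^ 2 *
        ∑ n ∈ Finset.range N, ((n : ℝ) + 1 - θ) * ‖cf (n + 1) (Cw θ F w)‖ ^ 2 := by
          rw [Finset.mul_sum]
          apply Finset.sum_congr rfl
          intro n _
          ring
    _ ≤ ‖Complex.exp ((θ + s) * H (ρ * w))‖ ^ 2 * (θ * ‖cf 0 (Cw θ F w)‖ ^ 2) :=
          mul_le_mul_of_nonneg_left ha hG
    _ = _ := by ring

/-- **The quadratic inequality.** -/
theorem quad (S : Sg Y H) (L : Lg Y f) {ρ θ : ℝ} (hρ0 : 0 < ρ) (hρ1 : ρ < 1) (hθ0 : 0 < θ)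
    (hθ1 : θ < 1) (s : ℂ) {x : ℝ} (hx : x ∈ Ioo (0:ℝ) 1) (N M : ℕ) :
    ∑ n ∈ Finset.range N, ((n : ℝ) + 1 - θ) * ∑ m ∈ Finset.Ico N M, x ^ (m - (n + 1)) *
      ‖PC θ (fun k => cf (m - k) (ee θ ρ s H f k)) (n + 1) x‖ ^ 2 ≤
      θ * ∑' m : ℕ, x ^ m * ‖cf m (ee θ ρ s H f 0)‖ ^ 2 := by
  have hR0 : 1 < ρ⁻¹ := (one_lt_inv₀ hρ0).2 hρ1
  set r : ℝ := Real.sqrt x with hr
  have hr0 : 0 ≤ r := Real.sqrt_nonneg x
  have hr2 : r ^ 2 = x := Real.sq_sqrt hx.1.le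
  have hr1 : r < 1 := by
    have := hx.2
    nlinarith
  have hwb : ∀ w : ℂ, ‖w‖ = r → w ∈ ball (0 : ℂ) ρ⁻¹ := fun w hw => by
    rw [mem_ball_zero_iff, hw]; linarith
  set e := ee θ ρ s H f with he
  have hed : ∀ k, DifferentiableOn ℂ (e k) (ball 0 ρ⁻¹) := fun k => ee_diff S L hρ0 θ s k
  have hcirc : ∀ t : ℝ, ‖circleMap 0 r t‖ = r := fun t => by simp [abs_of_nonneg hr0]
  -- Parseval
  have hcont : ∀ g : ℂ → ℂ, DifferentiableOn ℂ g (ball 0 ρ⁻¹) →
      Continuous fun t : ℝ => g (circleMap 0 r t) := fun g hg =>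
    hg.continuousOn.comp_continuous (continuous_circleMap 0 r) fun t => hwb _ (hcirc t)
  have hre : ∀ g : ℂ → ℂ, DifferentiableOn ℂ g (ball 0 ρ⁻¹) →
      (∫ t in (0:ℝ)..(2 * Real.pi), (starRingEnd ℂ) (g (circleMap 0 r t)) *
        g (circleMap 0 r t)).re = ∫ t in (0:ℝ)..(2 * Real.pi), ‖g (circleMap 0 r t)‖ ^ 2 := by
    intro g hg
    have hc := hcont g hg
    have hc2 : Continuous fun t : ℝ => (starRingEnd ℂ) (g (circleMap 0 r t)) *
        g (circleMap 0 r t) := (Complex.continuous_conj.comp hc).mul hc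
    have hc3 : IntervalIntegrable (fun t : ℝ => (starRingEnd ℂ) (g (circleMap 0 r t)) *
        g (circleMap 0 r t)) volume 0 (2 * Real.pi) := hc2.intervalIntegrable _ _
    have h1 := Complex.reCLM.intervalIntegral_comp_comm hc3
    refine h1.symm.trans ?_
    apply intervalIntegral.integral_congr
    intro t _
    show ((starRingEnd ℂ) (g (circleMap 0 r t)) * g (circleMap 0 r t)).re =
      ‖g (circleMap 0 r t)‖ ^ 2
    rw [← Complex.normSq_eq_conj_mul_self, Complex.ofReal_re, Complex.normSq_eq_norm_sq]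
  have P : ∀ n, HasSum (fun m => x ^ m * ‖∑ i ∈ Finset.range (n + 1),
      ((bn θ i (n - i) * (x ^ (n - i) * (1 - x) ^ i) : ℝ) : ℂ) *
      (if i ≤ m then cf (m - i) (e i) else 0)‖ ^ 2) ((2 * Real.pi)⁻¹ *
        ∫ t in (0:ℝ)..(2 * Real.pi), ‖hh θ x e n (circleMap 0 r t)‖ ^ 2) := by
    intro n
    have h1 := pars hr0 (fun z hz => hh_hasSum (θ := θ) (x := x) hed n (hwb z hz))
    rw [hr2, hre _ (hh_diff hed n)] at h1
    exact h1
  have P0 : HasSum (fun m => x ^ m * ‖cf m (e 0)‖ ^ 2) ((2 * Real.pi)⁻¹ *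
        ∫ t in (0:ℝ)..(2 * Real.pi), ‖e 0 (circleMap 0 r t)‖ ^ 2) := by
    have h1 := pars hr0 (fun z hz => cf_hasSum (hed 0) (hwb z hz))
    rw [hr2, hre _ (hed 0)] at h1
    exact h1
  rw [P0.tsum_eq]
  have hπ : 0 < (2 * Real.pi)⁻¹ := by positivity
  -- the integrated inequality
  have hint : ∑ n ∈ Finset.range N, ((n : ℝ) + 1 - θ) * ((x ^ (n + 1))⁻¹ * ((2 * Real.pi)⁻¹ *
      ∫ t in (0:ℝ)..(2 * Real.pi), ‖hh θ x e (n + 1) (circleMap 0 r t)‖ ^ 2)) ≤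
      θ * ((2 * Real.pi)⁻¹ * ∫ t in (0:ℝ)..(2 * Real.pi), ‖e 0 (circleMap 0 r t)‖ ^ 2) := by
    have h1 : ∫ t in (0:ℝ)..(2 * Real.pi), ∑ n ∈ Finset.range N, ((n : ℝ) + 1 - θ) *
        ((x ^ (n + 1))⁻¹ * ‖hh θ x e (n + 1) (circleMap 0 r t)‖ ^ 2) ≤
        ∫ t in (0:ℝ)..(2 * Real.pi), θ * ‖e 0 (circleMap 0 r t)‖ ^ 2 := by
      apply intervalIntegral.integral_mono_on (by positivity)
      · apply Continuous.intervalIntegrable
        apply continuous_finsetSum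
        intro n _
        exact continuous_const.mul (continuous_const.mul
          ((hcont _ (hh_diff hed (n + 1))).norm.pow 2))
      · apply Continuous.intervalIntegrable
        exact continuous_const.mul ((hcont _ (hed 0)).norm.pow 2)
      · intro t _
        exact pointwise S L hρ0 hρ1 hθ0 hθ1 s hx (by rw [hcirc, hr2]) N
    rw [intervalIntegral.integral_finsetSum, intervalIntegral.integral_const_mul] at h1
    · have h2 := mul_le_mul_of_nonneg_left h1 hπ.le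
      refine le_trans (le_of_eq ?_) (h2.trans (le_of_eq (by ring)))
      rw [Finset.mul_sum]
      apply Finset.sum_congr rfl
      intro n _
      rw [intervalIntegral.integral_const_mul, intervalIntegral.integral_const_mul]
      ring
    · intro n _
      apply Continuous.intervalIntegrable
      exact continuous_const.mul (continuous_const.mul
        ((hcont _ (hh_diff hed (n + 1))).norm.pow 2))
  refine le_trans ?_ hint
  apply Finset.sum_le_sum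
  intro n hn
  have hn' : n + 1 ≤ N := Finset.mem_range.1 hn
  apply mul_le_mul_of_nonneg_left _ (by
    have : (0 : ℝ) ≤ n := Nat.cast_nonneg n
    linarith)
  have hxn : 0 < x ^ (n + 1) := pow_pos hx.1 _
  rw [← div_eq_inv_mul, le_div_iff₀ hxn]
  have h3 := sum_le_hasSum (Finset.Ico N M) (fun m _ => mul_nonneg (pow_nonneg hx.1.le m)
    (sq_nonneg _)) (P (n + 1))
  refine le_trans (le_of_eq ?_) h3
  rw [Finset.sum_mul]
  apply Finset.sum_congr rfl
  intro m hm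
  have hm' : N ≤ m := (Finset.mem_Ico.1 hm).1
  have e1 : x ^ (m - (n + 1)) * x ^ (n + 1) = x ^ m := by
    rw [← pow_add]
    congr 1
    omega
  rw [mul_right_comm, e1]
  congr 3
  unfold PC
  apply Finset.sum_congr rfl
  intro i hi
  have hi' : i ≤ n + 1 := Nat.lt_succ_iff.1 (Finset.mem_range.1 hi)
  rw [if_pos (by omega)]

end Pool.Agent.W5h41.MA
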