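import Pool.Agent.H64.G.T9f66d723.W5h41.MA11

set_option autoImplicit false

/-! # The second moment from the area theorem -/

namespace Pool.Agent.W5h41.MA

open Complex Metric Set Filter Topology MeasureTheory
open Pool.Agent.W677.Mar
open Pool.Agent.H33R3.Bom (J)

variable {Y H : ℂ → ℂ}

theorem pow_bound {r : ℝ} (h0 : 0 < r) (h1 : r < 1) (m : ℕ) : m * (1 - r) * r ^ m ≤ 1 := by
  have h5 := one_add_mul_le_pow (a := 1 - r) (by linarith) m
  have h6 : r ^ m * (1 + m * (1 - r)) ≤ 1 := by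
    calc r ^ m * (1 + m * (1 - r)) ≤ r ^ m * (1 + (1 - r)) ^ m :=
          mul_le_mul_of_nonneg_left h5 (by positivity)
      _ = (r * (1 + (1 - r))) ^ m := by rw [mul_pow]
      _ ≤ 1 := by
        apply pow_le_one₀ (by nlinarith)
        nlinarith [sq_nonneg (1 - r)]
  have h7 : 0 < r ^ m := by positivity
  nlinarith

/-- the coefficients of `z Y' - Y` -/
theorem zY_hasSum (hY : DifferentiableOn ℂ Y (ball 0 1)) {z : ℂ} (hz : z ∈ ball (0 : ℂ) 1) :
    HasSum (fun j : ℕ => (((j : ℂ) - 1) * cf j Y) * z ^ j) (z * deriv Y z - Y z) := by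
  have h1 := (cf_hasSum (hY.deriv isOpen_ball) hz).mul_left z
  have h2 : HasSum (fun j : ℕ => (((j + 1 : ℕ) : ℂ) * cf (j + 1) Y) * z ^ (j + 1))
      (z * deriv Y z) := by
    have e : (fun j : ℕ => (((j + 1 : ℕ) : ℂ) * cf (j + 1) Y) * z ^ (j + 1)) =
        fun j : ℕ => z * (cf j (deriv Y) * z ^ j) := by
      funext j
      rw [cf_deriv]
      push_cast
      ring
    rw [e]
    exact h1
  have h3 := (hasSum_nat_add_iff' (f := fun j : ℕ => ((j : ℂ) * cf j Y) * z ^ j)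
    (g := z * deriv Y z) 1)
  simp only [Finset.range_one, Finset.sum_singleton, Nat.cast_zero, zero_mul, sub_zero] at h3
  have h4 := (h3.1 h2).sub (cf_hasSum hY hz)
  have e : (fun j : ℕ => (((j : ℂ) - 1) * cf j Y) * z ^ j) =
      fun j : ℕ => ((j : ℂ) * cf j Y) * z ^ j - cf j Y * z ^ j := by
    funext j
    ring
  rw [e]
  exact h4

theorem two_bound (S : Sg Y H) {r : ℝ} (hr : r ∈ Ioo (0 : ℝ) 1) :
    (∫ t in (0:ℝ)..(2 * Real.pi), ‖Complex.exp (H (circleMap 0 r t))‖ ^ 2) * (1 - r) ≤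
      4 * Real.pi := by
  have hYd := S.G.diff
  obtain ⟨R, hR⟩ : ∃ R, R = Real.sqrt r := ⟨_, rfl⟩
  have hR0 : 0 < R := by rw [hR]; exact Real.sqrt_pos.2 hr.1
  have hR2 : R ^ 2 = r := by rw [hR]; exact Real.sq_sqrt hr.1.le
  have hR1 : R < 1 := by
    have := hr.2
    nlinarith
  have hπ : 0 < 2 * Real.pi := by positivity
  have hmem : ∀ z : ℂ, ‖z‖ = R → z ∈ ball (0 : ℂ) 1 := fun z hz => by
    rw [mem_ball_zero_iff, hz]; exact hR1
  have hmem' : ∀ z : ℂ, ‖z‖ = r → z ∈ ball (0 : ℂ) 1 := fun z hz => by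
    rw [mem_ball_zero_iff, hz]; exact hr.2
  have hcirc : ∀ t : ℝ, ‖circleMap 0 R t‖ = R := fun t => by simp [abs_of_pos hR0]
  have hcirc' : ∀ t : ℝ, ‖circleMap 0 r t‖ = r := fun t => by simp [abs_of_pos hr.1]
  -- the area theorem
  have hJ := t1 Y S.G Polynomial.X R hR0 hR1
  have hJ2 : (∫ t in (0:ℝ)..(2 * Real.pi), (starRingEnd ℂ) (Y (circleMap 0 R t)) *
      (circleMap 0 R t * deriv Y (circleMap 0 R t) - Y (circleMap 0 R t))).re ≤ 0 := by
    have e1 : J R (fun z => Polynomial.X.eval (Y z / z))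
        (deriv fun z => Polynomial.X.eval (Y z / z)) = (r⁻¹) * (∫ t in (0:ℝ)..(2 * Real.pi),
          (starRingEnd ℂ) (Y (circleMap 0 R t)) * (circleMap 0 R t *
            deriv Y (circleMap 0 R t) - Y (circleMap 0 R t))).re := by
      have key : ∀ z : ℂ, ‖z‖ = R → (starRingEnd ℂ) (Polynomial.X.eval (Y z / z)) *
          (z * deriv (fun z => Polynomial.X.eval (Y z / z)) z) =
          ((r⁻¹ : ℝ) : ℂ) * ((starRingEnd ℂ) (Y z) * (z * deriv Y z - Y z)) := by
        intro z hz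
        have hz0 : z ≠ 0 := by rw [← norm_pos_iff, hz]; exact hR0
        have hd : HasDerivAt (fun z => Polynomial.X.eval (Y z / z))
            ((deriv Y z * z - Y z * 1) / z ^ 2) z := by
          simp only [Polynomial.eval_X]
          exact ((hYd.differentiableAt (isOpen_ball.mem_nhds (hmem z hz))).hasDerivAt).div
            (hasDerivAt_id z) hz0
        have hc0 : (starRingEnd ℂ) z ≠ 0 := (map_ne_zero _).2 hz0
        have hzz : (r : ℂ) = z * (starRingEnd ℂ) z := by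
          rw [Complex.mul_conj, Complex.normSq_eq_norm_sq, hz, hR2]
        rw [hd.deriv, Polynomial.eval_X, map_div₀, Complex.ofReal_inv, hzz]
        field_simp
      unfold J
      rw [← Complex.re_ofReal_mul, ← intervalIntegral.integral_const_mul]
      congr 1
      apply intervalIntegral.integral_congr
      intro t _
      exact key _ (hcirc t)
    rw [e1] at hJ
    exact nonpos_of_mul_nonpos_right hJ (inv_pos.2 hr.1)
  -- Parseval
  have hs0 := cf_summable hR0.le hR1 hYd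
  have hs1 : Summable fun j : ℕ => ‖((j : ℂ) - 1) * cf j Y‖ * R ^ j := by
    have h1 := (zY_hasSum hYd (z := (R : ℂ)) (hmem _ (by
      rw [Complex.norm_real, Real.norm_of_nonneg hR0.le]))).summable.norm
    refine h1.congr fun j => ?_
    rw [norm_mul _ ((R : ℂ) ^ j), norm_pow, Complex.norm_real, Real.norm_of_nonneg hR0.le]
  have p1 := Complex.hasSum_re (Pool.Agent.Helper405.Area.parseval hR0.le hs0 hs1
    (fun z hz => cf_hasSum hYd (hmem z hz)) (fun z hz => zY_hasSum hYd (hmem z hz)))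
  have e1 : ∀ j : ℕ, ((starRingEnd ℂ) (cf j Y) * (((j : ℂ) - 1) * cf j Y) *
      ((R ^ (2 * j) : ℝ) : ℂ)).re = ((j : ℝ) - 1) * ‖cf j Y‖ ^ 2 * r ^ j := by
    intro j
    rw [show (starRingEnd ℂ) (cf j Y) * (((j : ℂ) - 1) * cf j Y) = (((j : ℝ) - 1 : ℝ) : ℂ) *
      ((starRingEnd ℂ) (cf j Y) * cf j Y) by push_cast; ring, ← Complex.normSq_eq_conj_mul_self,
      ← Complex.ofReal_mul, ← Complex.ofReal_mul, Complex.ofReal_re, Complex.normSq_eq_norm_sq,
      pow_mul, hR2]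
  simp only [e1] at p1
  rw [show (2 * Real.pi : ℂ)⁻¹ = (((2 * Real.pi)⁻¹ : ℝ) : ℂ) by push_cast; ring,
    Complex.re_ofReal_mul] at p1
  have hneg : (2 * Real.pi)⁻¹ * (∫ t in (0:ℝ)..(2 * Real.pi), (starRingEnd ℂ)
      (Y (circleMap 0 R t)) * (circleMap 0 R t * deriv Y (circleMap 0 R t) -
        Y (circleMap 0 R t))).re ≤ 0 :=
    mul_nonpos_of_nonneg_of_nonpos (inv_pos.2 hπ).le hJ2
  have hc0 : cf 0 Y = 1 := by rw [cf_zero, S.G.one]
  have hsum : ∀ M : ℕ, ∑ j ∈ Finset.range M, (j : ℝ) * ‖cf (j + 1) Y‖ ^ 2 * r ^ (j + 1) ≤ 1 := by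
    intro M
    have h1 := sum_le_hasSum (Finset.range (M + 1)) (fun j hj => by
      have hj' : 1 ≤ j := by
        rw [Finset.mem_range] at hj
        omega
      have : (1 : ℝ) ≤ j := by exact_mod_cast hj'
      have hr0 := hr.1
      have : 0 ≤ (j : ℝ) - 1 := by linarith
      positivity) p1
    rw [Finset.sum_range_succ'] at h1
    have h2 : ∑ k ∈ Finset.range M, (((k + 1 : ℕ) : ℝ) - 1) * ‖cf (k + 1) Y‖ ^ 2 * r ^ (k + 1) =
        ∑ j ∈ Finset.range M, (j : ℝ) * ‖cf (j + 1) Y‖ ^ 2 * r ^ (j + 1) := by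
      apply Finset.sum_congr rfl
      intro k _
      push_cast
      ring
    have h3 : (((0 : ℕ) : ℝ) - 1) * ‖cf 0 Y‖ ^ 2 * r ^ 0 = -1 := by
      rw [hc0]
      simp
    rw [h2, h3] at h1
    linarith
  -- the second moment
  have q := pars hr.1.le (h := fun z => Complex.exp (H z)) (b := fun j => -(((j : ℂ) - 1) * cf j Y))
    (fun z hz => by
      have h1 := (zY_hasSum hYd (hmem' z hz)).neg
      have e : (fun j : ℕ => -(((j : ℂ) - 1) * cf j Y) * z ^ j) =
          fun j : ℕ => -((((j : ℂ) - 1) * cf j Y) * z ^ j) := by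
        funext j
        ring
      rw [e, S.eq z (hmem' z hz)]
      have e2 : Y z - z * deriv Y z = -(z * deriv Y z - Y z) := by ring
      rw [e2]
      exact h1)
  have hH : Continuous fun t : ℝ => Complex.exp (H (circleMap 0 r t)) :=
    Complex.continuous_exp.comp (S.dH.continuousOn.comp_continuous (continuous_circleMap 0 r)
      fun t => hmem' _ (hcirc' t))
  have hcc3 : IntervalIntegrable (fun t : ℝ => (starRingEnd ℂ) (Complex.exp (H (circleMap 0 r t))) *
      Complex.exp (H (circleMap 0 r t))) volume 0 (2 * Real.pi) :=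
    ((Complex.continuous_conj.comp hH).mul hH).intervalIntegrable _ _
  have hre : (∫ t in (0:ℝ)..(2 * Real.pi), (starRingEnd ℂ) (Complex.exp (H (circleMap 0 r t))) *
      Complex.exp (H (circleMap 0 r t))).re = ∫ t in (0:ℝ)..(2 * Real.pi),
        ‖Complex.exp (H (circleMap 0 r t))‖ ^ 2 := by
    refine (Complex.reCLM.intervalIntegral_comp_comm hcc3).symm.trans ?_
    apply intervalIntegral.integral_congr
    intro t _
    show ((starRingEnd ℂ) (Complex.exp (H (circleMap 0 r t))) *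
      Complex.exp (H (circleMap 0 r t))).re = ‖Complex.exp (H (circleMap 0 r t))‖ ^ 2
    rw [← Complex.normSq_eq_conj_mul_self, Complex.ofReal_re, Complex.normSq_eq_norm_sq]
  rw [hre] at q
  have hr1 : 0 < 1 - r := by linarith [hr.2]
  have hle : ((2 * Real.pi)⁻¹ * ∫ t in (0:ℝ)..(2 * Real.pi),
      ‖Complex.exp (H (circleMap 0 r t))‖ ^ 2) * (1 - r) ≤ 2 := by
    have h1 := ((q.mul_right (1 - r)).tendsto_sum_nat).comp (tendsto_add_atTop_nat 1)
    apply le_of_tendsto' h1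
    intro M
    simp only [Function.comp]
    rw [Finset.sum_range_succ']
    have h2 : ∑ k ∈ Finset.range M, (r ^ 2) ^ (k + 1) * ‖-((((k + 1 : ℕ) : ℂ) - 1) * cf (k + 1) Y)‖ ^ 2 *
        (1 - r) ≤ ∑ j ∈ Finset.range M, (j : ℝ) * ‖cf (j + 1) Y‖ ^ 2 * r ^ (j + 1) := by
      apply Finset.sum_le_sum
      intro k _
      have h3 := pow_bound hr.1 hr.2 k
      have e3 : ‖-((((k + 1 : ℕ) : ℂ) - 1) * cf (k + 1) Y)‖ ^ 2 = (k : ℝ) ^ 2 * ‖cf (k + 1) Y‖ ^ 2 := by
        rw [norm_neg, norm_mul, mul_pow]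
        congr 2
        push_cast
        rw [add_sub_cancel_right, Complex.norm_natCast]
      rw [e3]
      have hr0 := hr.1
      have h4 : r ^ (k + 1) * (k * (1 - r)) ≤ 1 := by
        have : r ^ (k + 1) * (k * (1 - r)) = (k * (1 - r) * r ^ k) * r := by ring
        rw [this]
        have h5 : 0 ≤ k * (1 - r) * r ^ k := by positivity
        nlinarith [hr.2]
      calc (r ^ 2) ^ (k + 1) * ((k : ℝ) ^ 2 * ‖cf (k + 1) Y‖ ^ 2) * (1 - r)
          = (k * ‖cf (k + 1) Y‖ ^ 2 * r ^ (k + 1)) * (r ^ (k + 1) * (k * (1 - r))) := by ring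
        _ ≤ (k * ‖cf (k + 1) Y‖ ^ 2 * r ^ (k + 1)) * 1 :=
            mul_le_mul_of_nonneg_left h4 (by positivity)
        _ = _ := mul_one _
    have h6 : (r ^ 2) ^ 0 * ‖-((((0 : ℕ) : ℂ) - 1) * cf 0 Y)‖ ^ 2 * (1 - r) ≤ 1 := by
      rw [hc0]
      simp
      linarith [hr.1]
    linarith [hsum M]
  have h9 := mul_le_mul_of_nonneg_left hle hπ.le
  calc (∫ t in (0:ℝ)..(2 * Real.pi), ‖Complex.exp (H (circleMap 0 r t))‖ ^ 2) * (1 - r)
      = 2 * Real.pi * (((2 * Real.pi)⁻¹ * ∫ t in (0:ℝ)..(2 * Real.pi),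
      ‖Complex.exp (H (circleMap 0 r t))‖ ^ 2) * (1 - r)) := by field_simp
    _ ≤ 2 * Real.pi * 2 := h9
    _ = 4 * Real.pi := by ring

end Pool.Agent.W5h41.MA
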