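import Pool.Agent.H64.G.T9f66d723.W5h41.MA12
import Pool.Agent.H64.G.R_seed8.W677.MarGa

set_option autoImplicit false

/-! # From exponential moments to exponential square integrability -/

namespace Pool.Agent.W5h41.MA

open Complex Metric Set Filter Topology MeasureTheory
open Pool.Agent.W677.Mar

/-- a uniform bound of the exponential moments -/
def MB (C : ℝ) (t : ℂ) (B : ℝ) : Prop :=
  ∀ Y H : ℂ → ℂ, Sg Y H → ∀ r ∈ Ioo (0 : ℝ) 1,
    ∫ x in (0:ℝ)..(2 * Real.pi), Real.exp ((starRingEnd ℂ) t * H (circleMap 0 r x)).re ≤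
      C * Real.exp (B * lam (r ^ 2))

theorem lam_pos {r : ℝ} (hr : r ∈ Ioo (0 : ℝ) 1) : 0 < lam (r ^ 2) := by
  unfold lam
  have h1 : r ^ 2 < 1 := by nlinarith [hr.1, hr.2]
  have h2 : 0 < r ^ 2 := pow_pos hr.1 2
  have := Real.log_neg (by linarith : 0 < 1 - r ^ 2) (by linarith)
  linarith

/-- conversion of the exponents -/
theorem conv_exp {r σ I C : ℝ} (hr : r ∈ Ioo (0 : ℝ) 1) (hσ0 : 0 ≤ σ) (hσ1 : σ ≤ 1) (hC : 0 ≤ C)
    (h : I * (1 - r) ^ σ ≤ C) : I ≤ 2 * C * Real.exp (σ * lam (r ^ 2)) := by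
  have h1 : 0 < 1 - r := by linarith [hr.2]
  have h2 : 0 < 1 + r := by linarith [hr.1]
  have h3 : 0 < 1 - r ^ 2 := by nlinarith
  have e1 : Real.exp (σ * lam (r ^ 2)) * (1 - r ^ 2) ^ σ = 1 := by
    unfold lam
    rw [Real.rpow_def_of_pos h3, ← Real.exp_add]
    have : σ * -Real.log (1 - r ^ 2) + Real.log (1 - r ^ 2) * σ = 0 := by ring
    rw [this, Real.exp_zero]
  have e2 : (1 - r ^ 2) ^ σ ≤ (1 - r) ^ σ * 2 := by
    have e3 : 1 - r ^ 2 = (1 - r) * (1 + r) := by ring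
    rw [e3, Real.mul_rpow h1.le h2.le]
    apply mul_le_mul_of_nonneg_left _ (Real.rpow_nonneg h1.le _)
    calc (1 + r) ^ σ ≤ 2 ^ σ := Real.rpow_le_rpow h2.le (by linarith [hr.2]) hσ0
      _ ≤ 2 ^ (1 : ℝ) := Real.rpow_le_rpow_of_exponent_le (by norm_num) hσ1
      _ = 2 := Real.rpow_one 2
  have hE := Real.exp_pos (σ * lam (r ^ 2))
  rcases le_or_gt I 0 with h4 | h4
  · exact h4.trans (by positivity)
  calc I = I * (Real.exp (σ * lam (r ^ 2)) * (1 - r ^ 2) ^ σ) := by rw [e1, mul_one]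
    _ ≤ I * (Real.exp (σ * lam (r ^ 2)) * ((1 - r) ^ σ * 2)) := by
        apply mul_le_mul_of_nonneg_left _ h4.le
        exact mul_le_mul_of_nonneg_left e2 hE.le
    _ = 2 * (I * (1 - r) ^ σ) * Real.exp (σ * lam (r ^ 2)) := by ring
    _ ≤ 2 * C * Real.exp (σ * lam (r ^ 2)) := by
        apply mul_le_mul_of_nonneg_right _ hE.le
        linarith

/-- the method condition in real form -/
theorem cond_iff {θ δ σ : ℝ} {t : ℂ} (hσ : 0 < σ) (ht : t ≠ 0)
    (h : ‖t‖ ^ 2 * ((σ + θ) * (σ + 1 + θ) + δ * ((σ + 1) * (σ + 2))) ≤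
      θ * (1 - θ) * σ * (σ + 2) * ((1 + σ) ^ 2 - 2 * (1 + σ) * t.re + ‖t‖ ^ 2)) :
    kap σ θ + δ ≤ θ * (1 - θ) * (1 + σ) * σ *
      ‖((1 / (1 + σ) : ℝ) : ℂ) - 1 / (2 * ((starRingEnd ℂ) t / 2))‖ ^ 2 := by
  have hct : (starRingEnd ℂ) t ≠ 0 := (map_ne_zero _).2 ht
  have h1σ : (1 + σ : ℝ) ≠ 0 := by positivity
  have h1σc : ((1 + σ : ℝ) : ℂ) ≠ 0 := by exact_mod_cast h1σ
  have e1 : ((1 / (1 + σ) : ℝ) : ℂ) - 1 / (2 * ((starRingEnd ℂ) t / 2)) =
      ((starRingEnd ℂ) t - ((1 + σ : ℝ) : ℂ)) / (((1 + σ : ℝ) : ℂ) * (starRingEnd ℂ) t) := by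
    rw [Complex.ofReal_div, Complex.ofReal_one]
    field_simp
  have e2 : ‖(starRingEnd ℂ) t - ((1 + σ : ℝ) : ℂ)‖ ^ 2 =
      (1 + σ) ^ 2 - 2 * (1 + σ) * t.re + ‖t‖ ^ 2 := by
    rw [← Complex.normSq_eq_norm_sq, ← Complex.normSq_eq_norm_sq, Complex.normSq_apply,
      Complex.normSq_apply]
    simp only [Complex.sub_re, Complex.sub_im, Complex.conj_re, Complex.conj_im, Complex.ofReal_re,
      Complex.ofReal_im]
    ring
  have hn : 0 < ‖t‖ ^ 2 := by positivity
  rw [e1, norm_div, div_pow, e2, norm_mul, RCLike.norm_conj, mul_pow, Complex.norm_real,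
    Real.norm_of_nonneg (by positivity : 0 ≤ 1 + σ)]
  unfold kap
  rw [← sub_nonneg] at h ⊢
  have e3 : θ * (1 - θ) * (1 + σ) * σ * (((1 + σ) ^ 2 - 2 * (1 + σ) * t.re + ‖t‖ ^ 2) /
      ((1 + σ) ^ 2 * ‖t‖ ^ 2)) - ((σ + θ) * (σ + 1 + θ) / ((σ + 1) * (σ + 2)) + δ) =
      (θ * (1 - θ) * σ * (σ + 2) * ((1 + σ) ^ 2 - 2 * (1 + σ) * t.re + ‖t‖ ^ 2) -
        ‖t‖ ^ 2 * ((σ + θ) * (σ + 1 + θ) + δ * ((σ + 1) * (σ + 2)))) /
        ((1 + σ) * (σ + 2) * ‖t‖ ^ 2) := by
    field_simp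
    ring
  rw [e3]
  positivity

/-- moment bounds from the area method -/
theorem MB_method {θ δ : ℝ} (hθ0 : 0 < θ) (hθ1 : θ < 1) (hδ : 0 < δ) :
    ∃ C : ℝ, ∀ (t : ℂ) (σ : ℝ), t ≠ 0 → ‖t‖ ≤ 1 → 0 < σ → σ ≤ 1 →
      ‖t‖ ^ 2 * ((σ + θ) * (σ + 1 + θ) + δ * ((σ + 1) * (σ + 2))) ≤
        θ * (1 - θ) * σ * (σ + 2) * ((1 + σ) ^ 2 - 2 * (1 + σ) * t.re + ‖t‖ ^ 2) →
      MB C t σ := by
  obtain ⟨C, hC0, hC⟩ := mean_bound hθ0 hθ1 hδ
  refine ⟨2 * C, fun t σ ht ht1 hσ0 hσ1 h Y H S r hr => ?_⟩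
  have hct : (starRingEnd ℂ) t ≠ 0 := (map_ne_zero _).2 ht
  have h1 := hC Y H S ((starRingEnd ℂ) t / 2) σ (div_ne_zero hct two_ne_zero) (by
    rw [norm_div, RCLike.norm_conj, Complex.norm_ofNat]
    linarith [norm_nonneg t]) hσ0 hσ1 (cond_iff hσ0 ht h) r hr
  apply conv_exp hr hσ0.le hσ1 hC0
  refine le_trans (le_of_eq ?_) h1
  congr 1
  apply intervalIntegral.integral_congr
  intro x _
  show Real.exp ((starRingEnd ℂ) t * H (circleMap 0 r x)).re = ‖_‖ ^ 2
  rw [Complex.norm_exp, ← Real.exp_nat_mul]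
  congr 1
  rw [show (starRingEnd ℂ) t * H (circleMap 0 r x) = ((2 : ℝ) : ℂ) *
    ((starRingEnd ℂ) t / 2 * H (circleMap 0 r x)) by push_cast; ring, Complex.re_ofReal_mul]
  norm_num

/-- the moment of order `2` -/
theorem MB_two : MB (2 * (4 * Real.pi)) 2 1 := by
  intro Y H S r hr
  have h1 := two_bound S hr
  apply conv_exp hr zero_le_one le_rfl (by positivity)
  rw [Real.rpow_one]
  refine le_trans (le_of_eq ?_) h1
  congr 1
  apply intervalIntegral.integral_congr
  intro x _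
  show Real.exp ((starRingEnd ℂ) 2 * H (circleMap 0 r x)).re = ‖_‖ ^ 2
  rw [Complex.norm_exp, ← Real.exp_nat_mul]
  congr 1
  rw [map_ofNat, show (2 : ℂ) = ((2 : ℝ) : ℂ) by push_cast; rfl, Complex.re_ofReal_mul]
  norm_num

/-- radial truncation -/
noncomputable def trunc (M : ℝ) (v : ℂ) : ℂ := ((M / max M ‖v‖ : ℝ) : ℂ) * v

theorem trunc_cont {M : ℝ} (hM : 0 < M) : Continuous (trunc M) := by
  unfold trunc
  apply Continuous.mul _ continuous_id
  apply Complex.continuous_ofReal.comp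
  exact continuous_const.div (continuous_const.max continuous_norm) fun v =>
    (lt_of_lt_of_le hM (le_max_left _ _)).ne'

theorem trunc_norm {M : ℝ} (hM : 0 < M) (v : ℂ) : ‖trunc M v‖ ≤ M := by
  unfold trunc
  have h1 : 0 < max M ‖v‖ := lt_of_lt_of_le hM (le_max_left _ _)
  rw [norm_mul, Complex.norm_real, Real.norm_of_nonneg (by positivity), div_mul_eq_mul_div,
    div_le_iff₀ h1]
  exact mul_le_mul_of_nonneg_left (le_max_right _ _) hM.le

theorem trunc_eq {M : ℝ} (hM : 0 < M) {v : ℂ} (hv : ‖v‖ ≤ M) : trunc M v = v := by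
  unfold trunc
  rw [max_eq_left hv, div_self hM.ne', Complex.ofReal_one, one_mul]

theorem trunc_exp {M : ℝ} (hM : 0 < M) (t v : ℂ) :
    Real.exp ((starRingEnd ℂ) t * trunc M v).re ≤ 1 + Real.exp ((starRingEnd ℂ) t * v).re := by
  have h1 : 0 < max M ‖v‖ := lt_of_lt_of_le hM (le_max_left _ _)
  have hc0 : 0 ≤ M / max M ‖v‖ := by positivity
  have hc1 : M / max M ‖v‖ ≤ 1 := (div_le_one h1).2 (le_max_left _ _)
  have e1 : ((starRingEnd ℂ) t * trunc M v).re = M / max M ‖v‖ * ((starRingEnd ℂ) t * v).re := by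
    unfold trunc
    rw [show (starRingEnd ℂ) t * (((M / max M ‖v‖ : ℝ) : ℂ) * v) = ((M / max M ‖v‖ : ℝ) : ℂ) *
      ((starRingEnd ℂ) t * v) by ring, Complex.re_ofReal_mul]
  rw [e1]
  set c := M / max M ‖v‖
  set x := ((starRingEnd ℂ) t * v).re
  rcases le_or_gt 0 x with h2 | h2
  · have : c * x ≤ x := by nlinarith
    have := Real.exp_le_exp.2 this
    linarith
  · have : c * x ≤ 0 := mul_nonpos_of_nonneg_of_nonpos hc0 h2.le
    have := Real.exp_le_one_iff.2 this
    have := Real.exp_pos x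
    linarith

/-- **The criterion.** -/
theorem criterion {a κ u0 C0 : ℝ} (ha : 0 < a) (hκ : 0 < κ) (hu0 : 0 < u0) (haκ : 4 * a * κ < 1)
    (hsmall : ∀ t : ℂ, ‖t‖ ≤ u0 / κ → MB C0 t (κ * ‖t‖ ^ 2))
    (hbig : ∀ u : ℂ, u0 ≤ ‖u‖ → ‖u‖ ≤ 1 → ∃ (C B : ℝ) (t : ℂ), MB C t B ∧
      a * ‖u‖ ^ 2 < ((starRingEnd ℂ) t * u).re - B) :
    ∃ C : ℝ, ∀ Y H : ℂ → ℂ, Sg Y H → ∀ r ∈ Ioo (0 : ℝ) 1,
      ∫ x in (0:ℝ)..(2 * Real.pi), Real.exp (a * ‖H (circleMap 0 r x)‖ ^ 2 / lam (r ^ 2)) ≤ C := by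
  have hpi := Real.pi_pos
  -- the finite cover
  choose! Cf Bf tf hMB hlt using hbig
  set K : Set ℂ := closedBall 0 1 ∩ {u | u0 ≤ ‖u‖} with hK
  have hKc : IsCompact K :=
    (isCompact_closedBall (0 : ℂ) 1).inter_right (isClosed_le continuous_const continuous_norm)
  have hK1 : ∀ u ∈ K, u0 ≤ ‖u‖ ∧ ‖u‖ ≤ 1 := fun u hu => ⟨hu.2, mem_closedBall_zero_iff.1 hu.1⟩
  obtain ⟨F, hFK, hF⟩ := hKc.elim_nhds_subcover
    (fun u => {v : ℂ | a * ‖v‖ ^ 2 < ((starRingEnd ℂ) (tf u) * v).re - Bf u}) (fun u hu => by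
      apply (isOpen_lt _ _).mem_nhds (hlt u (hK1 u hu).1 (hK1 u hu).2)
      · fun_prop
      · exact (Complex.continuous_re.comp (continuous_const.mul continuous_id)).sub continuous_const)
  refine ⟨(2 * Real.pi + max C0 0) / (1 - 4 * a * κ) + ∑ k ∈ F, Cf k, ?_⟩
  intro Y H S r hr
  have hL := lam_pos hr
  set L := lam (r ^ 2) with hLd
  obtain ⟨b, hb⟩ : ∃ b, b = L / (4 * a) := ⟨_, rfl⟩
  have hb0 : 0 < b := by rw [hb]; positivity
  have hM : 0 < u0 * L := by positivity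
  have hcirc : ∀ t : ℝ, ‖circleMap 0 r t‖ = r := fun t => by simp [abs_of_pos hr.1]
  have hcb : ∀ x : ℝ, circleMap 0 r x ∈ ball (0 : ℂ) 1 := fun x => by
    rw [mem_ball_zero_iff, hcirc]; exact hr.2
  set g : ℝ → ℂ := fun x => H (circleMap 0 r x) with hg
  have hgc : Continuous g := S.dH.continuousOn.comp_continuous (continuous_circleMap 0 r) hcb
  have hgL : ∀ x, ‖g x‖ ≤ L := by
    intro x
    have h1 := goluzin S (hcb x)
    rw [hcirc] at h1
    exact h1
  -- the truncated part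
  have htc : Continuous fun x => trunc (u0 * L) (g x) := (trunc_cont hM).comp hgc
  have hmom : ∀ t : ℂ, ∫ x in (0:ℝ)..(2 * Real.pi),
      Real.exp ((starRingEnd ℂ) t * trunc (u0 * L) (g x)).re ≤
      (2 * Real.pi + max C0 0) * Real.exp (κ * L * ‖t‖ ^ 2) := by
    intro t
    have hE : 1 ≤ Real.exp (κ * L * ‖t‖ ^ 2) := Real.one_le_exp (by positivity)
    have hm0 : 0 ≤ max C0 0 := le_max_right _ _
    rcases le_or_gt ‖t‖ (u0 / κ) with h1 | h1
    · have h2 := hsmall t h1 Y H S r hr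
      have h3 : ∫ x in (0:ℝ)..(2 * Real.pi), Real.exp ((starRingEnd ℂ) t * trunc (u0 * L) (g x)).re ≤
          ∫ x in (0:ℝ)..(2 * Real.pi), (1 + Real.exp ((starRingEnd ℂ) t * g x).re) := by
        apply intervalIntegral.integral_mono_on (by positivity)
        · apply Continuous.intervalIntegrable
          exact Real.continuous_exp.comp (Complex.continuous_re.comp (continuous_const.mul htc))
        · apply Continuous.intervalIntegrable
          exact continuous_const.add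
            (Real.continuous_exp.comp (Complex.continuous_re.comp (continuous_const.mul hgc)))
        · intro x _
          exact trunc_exp hM t (g x)
      have hi : IntervalIntegrable (fun x => Real.exp ((starRingEnd ℂ) t * g x).re) volume 0
          (2 * Real.pi) := by
        apply Continuous.intervalIntegrable
        exact Real.continuous_exp.comp (Complex.continuous_re.comp (continuous_const.mul hgc))
      rw [intervalIntegral.integral_add intervalIntegrable_const hi,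
        intervalIntegral.integral_const, smul_eq_mul, mul_one, sub_zero] at h3
      have h4 : C0 * Real.exp (κ * ‖t‖ ^ 2 * L) ≤ max C0 0 * Real.exp (κ * L * ‖t‖ ^ 2) := by
        rw [show κ * ‖t‖ ^ 2 * L = κ * L * ‖t‖ ^ 2 by ring]
        exact mul_le_mul_of_nonneg_right (le_max_left _ _) (Real.exp_pos _).le
      have h5 : 2 * Real.pi ≤ 2 * Real.pi * Real.exp (κ * L * ‖t‖ ^ 2) :=
        le_mul_of_one_le_right (by positivity) hE
      have h6 : ∫ x in (0:ℝ)..(2 * Real.pi), Real.exp ((starRingEnd ℂ) t * g x).re ≤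
        C0 * Real.exp (κ * ‖t‖ ^ 2 * L) := h2
      rw [add_mul]
      linarith
    · have h2 : ∫ x in (0:ℝ)..(2 * Real.pi), Real.exp ((starRingEnd ℂ) t * trunc (u0 * L) (g x)).re ≤
          ∫ _x in (0:ℝ)..(2 * Real.pi), Real.exp (κ * L * ‖t‖ ^ 2) := by
        apply intervalIntegral.integral_mono_on (by positivity)
        · apply Continuous.intervalIntegrable
          exact Real.continuous_exp.comp (Complex.continuous_re.comp (continuous_const.mul htc))
        · exact intervalIntegrable_const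
        · intro x _
          apply Real.exp_le_exp.2
          have h3 := trunc_norm hM (g x)
          have h4 : u0 ≤ κ * ‖t‖ := by
            rw [div_lt_iff₀ hκ] at h1
            linarith
          calc ((starRingEnd ℂ) t * trunc (u0 * L) (g x)).re ≤
                ‖(starRingEnd ℂ) t * trunc (u0 * L) (g x)‖ := Complex.re_le_norm _
            _ = ‖t‖ * ‖trunc (u0 * L) (g x)‖ := by rw [norm_mul, RCLike.norm_conj]
            _ ≤ ‖t‖ * (u0 * L) := mul_le_mul_of_nonneg_left h3 (norm_nonneg t)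
            _ ≤ ‖t‖ * (κ * ‖t‖ * L) := by
                apply mul_le_mul_of_nonneg_left _ (norm_nonneg t)
                exact mul_le_mul_of_nonneg_right h4 hL.le
            _ = _ := by ring
      rw [intervalIntegral.integral_const, smul_eq_mul, sub_zero] at h2
      rw [add_mul]
      have h5 : 0 ≤ max C0 0 * Real.exp (κ * L * ‖t‖ ^ 2) := by positivity
      linarith
  have hbm0 : 0 < b - κ * L := by
    rw [hb]
    have : κ * L * (4 * a) < L := by nlinarith
    rw [sub_pos, lt_div_iff₀ (by positivity)]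
    exact this
  obtain ⟨g1, g2⟩ := gauss0 hbm0
  have e1 : (fun t : ℂ => Real.exp (-b * ‖t‖ ^ 2) * ((2 * Real.pi + max C0 0) *
      Real.exp (κ * L * ‖t‖ ^ 2))) =
      fun t : ℂ => (2 * Real.pi + max C0 0) * Real.exp (-(b - κ * L) * ‖t‖ ^ 2) := by
    funext t
    have : Real.exp (-(b - κ * L) * ‖t‖ ^ 2) = Real.exp (-b * ‖t‖ ^ 2) *
        Real.exp (κ * L * ‖t‖ ^ 2) := by
      rw [← Real.exp_add]
      congr 1
      ring
    rw [this]
    ring
  have h1 := gauss_avg htc (fun x => trunc_norm hM (g x)) hb0 hmom (by rw [e1]; exact g1.const_mul _)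
  rw [e1, integral_const_mul, g2] at h1
  have h2 : b / Real.pi * ((2 * Real.pi + max C0 0) * (Real.pi / (b - κ * L))) =
      (2 * Real.pi + max C0 0) / (1 - 4 * a * κ) := by
    have h3 : b - κ * L = b * (1 - 4 * a * κ) := by
      rw [hb]
      field_simp
    have h4 : 1 - 4 * a * κ ≠ 0 := by
      have : 0 < 1 - 4 * a * κ := by linarith
      exact this.ne'
    rw [h3]
    field_simp
  rw [h2] at h1
  -- the pointwise bound
  have hpt : ∀ x, Real.exp (a * ‖g x‖ ^ 2 / L) ≤ Real.exp (‖trunc (u0 * L) (g x)‖ ^ 2 / (4 * b)) +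
      ∑ k ∈ F, Real.exp (-(Bf k * L)) * Real.exp ((starRingEnd ℂ) (tf k) * g x).re := by
    intro x
    have hnn : 0 ≤ ∑ k ∈ F, Real.exp (-(Bf k * L)) * Real.exp ((starRingEnd ℂ) (tf k) * g x).re :=
      Finset.sum_nonneg fun k _ => by positivity
    rcases le_or_gt ‖g x‖ (u0 * L) with h3 | h3
    · rw [trunc_eq hM h3]
      have e2 : ‖g x‖ ^ 2 / (4 * b) = a * ‖g x‖ ^ 2 / L := by
        rw [hb]
        field_simp
      rw [e2]
      linarith
    · set u : ℂ := g x / (L : ℂ) with hu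
      have hLc : (L : ℂ) ≠ 0 := by exact_mod_cast hL.ne'
      have hun : ‖u‖ = ‖g x‖ / L := by
        rw [hu, norm_div, Complex.norm_real, Real.norm_of_nonneg hL.le]
      have hgu : g x = L * u := by rw [hu]; field_simp
      have huK : u ∈ K := by
        refine ⟨?_, ?_⟩
        · rw [mem_closedBall_zero_iff, hun, div_le_one hL]
          exact hgL x
        · show u0 ≤ ‖u‖
          rw [hun, le_div_iff₀ hL]
          exact h3.le
      obtain ⟨k, hkF, hk⟩ := mem_iUnion₂.1 (hF huK)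
      have hk' : a * ‖u‖ ^ 2 < ((starRingEnd ℂ) (tf k) * u).re - Bf k := hk
      have h4 : Real.exp (a * ‖g x‖ ^ 2 / L) ≤ Real.exp (-(Bf k * L)) *
          Real.exp ((starRingEnd ℂ) (tf k) * g x).re := by
        rw [← Real.exp_add]
        apply Real.exp_le_exp.2
        have e2 : a * ‖g x‖ ^ 2 / L = L * (a * ‖u‖ ^ 2) := by
          rw [hun]
          field_simp
        have e3 : ((starRingEnd ℂ) (tf k) * g x).re = L * ((starRingEnd ℂ) (tf k) * u).re := by
          rw [hgu, show (starRingEnd ℂ) (tf k) * ((L : ℂ) * u) = (L : ℂ) *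
            ((starRingEnd ℂ) (tf k) * u) by ring, Complex.re_ofReal_mul]
        rw [e2, e3]
        nlinarith
      have h5 := Finset.single_le_sum (f := fun k => Real.exp (-(Bf k * L)) *
        Real.exp ((starRingEnd ℂ) (tf k) * g x).re) (fun k _ => by positivity) hkF
      have h6 := Real.exp_pos (‖trunc (u0 * L) (g x)‖ ^ 2 / (4 * b))
      linarith
  have hgi : ∀ k, IntervalIntegrable (fun x => Real.exp (-(Bf k * L)) *
      Real.exp ((starRingEnd ℂ) (tf k) * g x).re) volume 0 (2 * Real.pi) := by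
    intro k
    apply Continuous.intervalIntegrable
    exact continuous_const.mul
      (Real.continuous_exp.comp (Complex.continuous_re.comp (continuous_const.mul hgc)))
  have hsi : IntervalIntegrable (fun x => ∑ k ∈ F, Real.exp (-(Bf k * L)) *
      Real.exp ((starRingEnd ℂ) (tf k) * g x).re) volume 0 (2 * Real.pi) := by
    apply Continuous.intervalIntegrable
    apply continuous_finsetSum
    intro k _
    exact continuous_const.mul
      (Real.continuous_exp.comp (Complex.continuous_re.comp (continuous_const.mul hgc)))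
  have hti : IntervalIntegrable (fun x => Real.exp (‖trunc (u0 * L) (g x)‖ ^ 2 / (4 * b))) volume 0
      (2 * Real.pi) := by
    apply Continuous.intervalIntegrable
    exact Real.continuous_exp.comp ((htc.norm.pow 2).div_const _)
  have h7 : ∫ x in (0:ℝ)..(2 * Real.pi), Real.exp (a * ‖g x‖ ^ 2 / L) ≤
      ∫ x in (0:ℝ)..(2 * Real.pi), (Real.exp (‖trunc (u0 * L) (g x)‖ ^ 2 / (4 * b)) +
      ∑ k ∈ F, Real.exp (-(Bf k * L)) * Real.exp ((starRingEnd ℂ) (tf k) * g x).re) := by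
    apply intervalIntegral.integral_mono_on (by positivity)
    · apply Continuous.intervalIntegrable
      exact Real.continuous_exp.comp ((continuous_const.mul (hgc.norm.pow 2)).div_const _)
    · exact hti.add hsi
    · intro x _
      exact hpt x
  rw [intervalIntegral.integral_add hti hsi,
    intervalIntegral.integral_finsetSum fun k _ => hgi k] at h7
  refine h7.trans (add_le_add h1 ?_)
  apply Finset.sum_le_sum
  intro k hk
  rw [intervalIntegral.integral_const_mul]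
  have hkK := hK1 k (hFK k hk)
  have h8 : ∫ x in (0:ℝ)..(2 * Real.pi), Real.exp ((starRingEnd ℂ) (tf k) * g x).re ≤
      Cf k * Real.exp (Bf k * L) := hMB k hkK.1 hkK.2 Y H S r hr
  calc Real.exp (-(Bf k * L)) * ∫ x in (0:ℝ)..(2 * Real.pi),
        Real.exp ((starRingEnd ℂ) (tf k) * g x).re ≤
        Real.exp (-(Bf k * L)) * (Cf k * Real.exp (Bf k * L)) :=
          mul_le_mul_of_nonneg_left h8 (Real.exp_pos _).le
    _ = Cf k * (Real.exp (-(Bf k * L)) * Real.exp (Bf k * L)) := by ring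
    _ = Cf k := by rw [← Real.exp_add]; simp

end Pool.Agent.W5h41.MA
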