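import Pool.Agent.H64.G.T9f66d723.W5h41.MA1

set_option autoImplicit false

/-! # The constants of the lower bound -/

namespace Pool.Agent.W5h41.MA

open Polynomial MeasureTheory Set Filter Topology

noncomputable def tau (σ θ : ℝ) (n : ℕ) : ℝ :=
  ∏ i ∈ Finset.range n, (((i : ℝ) + 1 - θ) ^ 2 / ((i + 1) * (i + 1 + σ)))

theorem tau_succ (σ θ : ℝ) (n : ℕ) :
    tau σ θ (n + 1) = tau σ θ n * (((n : ℝ) + 1 - θ) ^ 2 / ((n + 1) * (n + 1 + σ))) := by
  unfold tau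
  rw [Finset.prod_range_succ]

theorem tau_nonneg {σ : ℝ} (hσ : 0 < σ) (θ : ℝ) (n : ℕ) : 0 ≤ tau σ θ n :=
  Finset.prod_nonneg fun i _ => by positivity

theorem ne_theta {θ : ℝ} (h0 : 0 < θ) (h1 : θ < 1) (n : ℕ) : (n : ℝ) - θ ≠ 0 := by
  intro h
  rcases Nat.eq_zero_or_pos n with h2 | h2
  · rw [h2] at h; push_cast at h; linarith
  · have : (1 : ℝ) ≤ n := by exact_mod_cast h2
    linarith

theorem cE_eq {σ θ : ℝ} (hσ : 0 < σ) (h0 : 0 < θ) (h1 : θ < 1) :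
    ∀ n : ℕ, cE σ θ n = tau σ θ n * θ ^ 2 / ((n : ℝ) - θ) ^ 2
  | 0 => by
    unfold cE pr nr tau
    simp
    field_simp
  | n + 1 => by
    have h := cE_eq hσ h0 h1 n
    have hn := ne_theta h0 h1 n
    have hn1 := ne_theta h0 h1 (n + 1)
    push_cast at hn1
    have e1 : cE σ θ (n + 1) = cE σ θ n * ((n - θ) ^ 2 / ((n + 1) * (n + 1 + σ))) := by
      unfold cE pr nr
      rw [Finset.prod_range_succ, Finset.prod_range_succ, mul_pow, mul_div_mul_comm]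
      congr 1
      push_cast
      rw [neg_sq, mul_zero, zero_add]
    rw [e1, h, tau_succ]
    push_cast
    have h2 : (n : ℝ) + 1 + σ ≠ 0 := by positivity
    have h3 : (n : ℝ) + 1 ≠ 0 := by positivity
    field_simp

theorem cF_eq {σ θ : ℝ} (hσ : 0 < σ) :
    ∀ n : ℕ, cF σ θ n = tau σ θ n * ((1 + σ) * (2 + σ)) / ((n + 1 + σ) * (n + 2 + σ))
  | 0 => by
    unfold cF pr nr tau
    simp
    have h2 : (1 : ℝ) + σ ≠ 0 := by positivity
    have h3 : (2 : ℝ) + σ ≠ 0 := by positivity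
    field_simp
  | n + 1 => by
    have h := cF_eq (θ := θ) hσ n
    have e1 : cF σ θ (n + 1) = cF σ θ n * ((n + 1 - θ) ^ 2 / ((n + 1) * (n + 3 + σ))) := by
      unfold cF pr nr
      rw [Finset.prod_range_succ, Finset.prod_range_succ, mul_pow, mul_div_mul_comm]
      congr 1
      push_cast
      rw [neg_sq]
      congr 1
      · ring
      · ring
    rw [e1, h, tau_succ]
    push_cast
    have h2 : (n : ℝ) + 1 + σ ≠ 0 := by positivity
    have h3 : (n : ℝ) + 1 ≠ 0 := by positivity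
    have h4 : (n : ℝ) + 2 + σ ≠ 0 := by positivity
    have h5 : (n : ℝ) + 3 + σ ≠ 0 := by positivity
    have h6 : (n : ℝ) + 1 + 1 + σ ≠ 0 := by positivity
    have h7 : (n : ℝ) + 1 + 2 + σ ≠ 0 := by positivity
    field_simp
    ring

/-- the ratio of the two constants in the limit -/
noncomputable def kap (σ θ : ℝ) : ℝ := (σ + θ) * (σ + 1 + θ) / ((σ + 1) * (σ + 2))

/-- the error -/
noncomputable def GG (σ θ : ℝ) (M : ℕ) : ℝ :=
  tau σ θ M * (M * ((σ + 1) * M + ((1 + σ) - θ * (2 * σ + 1 + θ))) /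
    ((1 - θ) * (M - θ) * (M + 1 + σ)))

theorem tele {σ θ : ℝ} (hσ : 0 < σ) (h0 : 0 < θ) (h1 : θ < 1) :
    ∀ M : ℕ, (∑ n ∈ Finset.range M, ((n : ℝ) - θ) * cE σ θ n) +
      θ * kap σ θ / (1 - θ) * (∑ n ∈ Finset.range M, ((n : ℝ) + 1 - θ) * cF σ θ n) =
      -θ * GG σ θ M
  | 0 => by unfold GG; simp
  | M + 1 => by
    have h := tele hσ h0 h1 M
    rw [Finset.sum_range_succ, Finset.sum_range_succ, mul_add]
    have h2 : -θ * GG σ θ (M + 1) = -θ * GG σ θ M + (((M : ℝ) - θ) * cE σ θ M +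
        θ * kap σ θ / (1 - θ) * (((M : ℝ) + 1 - θ) * cF σ θ M)) := by
      rw [cE_eq hσ h0 h1, cF_eq hσ]
      unfold GG kap
      rw [tau_succ]
      have hn := ne_theta h0 h1 M
      have hn1 := ne_theta h0 h1 (M + 1)
      push_cast at hn1 ⊢
      have h2 : (M : ℝ) + 1 + σ ≠ 0 := by positivity
      have h3 : (M : ℝ) + 1 ≠ 0 := by positivity
      have h4 : (M : ℝ) + 2 + σ ≠ 0 := by positivity
      have h5 : (M : ℝ) + 1 + 1 + σ ≠ 0 := by positivity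
      have h6 : 1 - θ ≠ 0 := by linarith
      have h7 : σ + 1 ≠ 0 := by linarith
      have h8 : σ + 2 ≠ 0 := by linarith
      have h9 : (M : ℝ) + 1 + 1 + σ = M + 2 + σ := by ring
      rw [h9]
      field_simp
      ring
    rw [h2, ← h]
    ring

theorem cE_nonneg {σ : ℝ} (hσ : 0 < σ) (θ : ℝ) (n : ℕ) : 0 ≤ cE σ θ n :=
  div_nonneg (sq_nonneg _) (nr_pos hσ _ _).le

theorem cF_nonneg {σ : ℝ} (hσ : 0 < σ) (θ : ℝ) (n : ℕ) : 0 ≤ cF σ θ n :=
  div_nonneg (sq_nonneg _) (nr_pos hσ _ _).le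

/-- the second constant -/
noncomputable def SF (σ θ : ℝ) (N : ℕ) : ℝ := ∑ k ∈ Finset.range N, ((k : ℝ) + 1 - θ) * cF σ θ k

theorem SF_ge {σ θ : ℝ} (hσ : 0 < σ) (h1 : θ < 1) {N : ℕ} (hN : 1 ≤ N) : 1 - θ ≤ SF σ θ N := by
  have h := Finset.single_le_sum (s := Finset.range N)
    (f := fun k : ℕ => ((k : ℝ) + 1 - θ) * cF σ θ k) (fun k _ => by
      apply mul_nonneg _ (cF_nonneg hσ θ k)
      have : (0 : ℝ) ≤ k := Nat.cast_nonneg k
      linarith) (Finset.mem_range.2 hN)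
  refine le_trans (le_of_eq ?_) h
  unfold cF pr nr
  simp

theorem tau_le_one {σ θ : ℝ} (hσ : 0 < σ) (h0 : 0 < θ) (h1 : θ < 1) (n : ℕ) : tau σ θ n ≤ 1 := by
  apply Finset.prod_le_one
  · intro i _
    positivity
  · intro i _
    rw [div_le_one (by positivity)]
    have : (0 : ℝ) ≤ i := Nat.cast_nonneg i
    nlinarith

theorem SF_le {σ θ : ℝ} (hσ : 0 < σ) (h0 : 0 < θ) (h1 : θ < 1) (N : ℕ) : SF σ θ N ≤ N * (N + 1) := by
  have h : ∀ k ∈ Finset.range N, ((k : ℝ) + 1 - θ) * cF σ θ k ≤ N + 1 := by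
    intro k hk
    have hk1 : (k : ℝ) < N := by exact_mod_cast Finset.mem_range.1 hk
    have hk0 : (0 : ℝ) ≤ k := Nat.cast_nonneg k
    have h2 : cF σ θ k ≤ 1 := by
      rw [cF_eq hσ, div_le_one (by positivity)]
      have := tau_le_one hσ h0 h1 k
      have := tau_nonneg hσ θ k
      have h4 : (1 + σ) * (2 + σ) ≤ (k + 1 + σ) * (k + 2 + σ) := by nlinarith
      exact (mul_le_of_le_one_left (by positivity) (tau_le_one hσ h0 h1 k)).trans h4
    have h3 := cF_nonneg hσ θ k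
    nlinarith
  have := Finset.sum_le_sum h
  rw [Finset.sum_const, Finset.card_range, nsmul_eq_mul] at this
  exact this

/-- a bound of the error which does not depend on `σ` -/
theorem GG_le {σ θ : ℝ} (hσ : 0 < σ) (hσ1 : σ ≤ 1) (h0 : 0 < θ) (h1 : θ < 1) {M : ℕ} (hM : 1 ≤ M) :
    GG σ θ M ≤ 2 / (1 - θ) ^ 2 * Real.exp (-(θ * ∑ i ∈ Finset.range M, 1 / ((i : ℝ) + 1))) := by
  have hM1 : (1 : ℝ) ≤ M := by exact_mod_cast hM
  have ht : tau σ θ M ≤ Real.exp (-(θ * ∑ i ∈ Finset.range M, 1 / ((i : ℝ) + 1))) := by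
    rw [Finset.mul_sum, ← Finset.sum_neg_distrib, Real.exp_sum]
    apply Finset.prod_le_prod
    · intro i _
      positivity
    · intro i _
      have hi : (0 : ℝ) ≤ i := Nat.cast_nonneg i
      have h2 := Real.add_one_le_exp (-(θ * (1 / ((i : ℝ) + 1))))
      refine le_trans ?_ h2
      rw [div_le_iff₀ (by positivity)]
      have e : (-(θ * (1 / ((i : ℝ) + 1))) + 1) * ((i + 1) * (i + 1 + σ)) =
          (i + 1 - θ) * (i + 1 + σ) := by
        field_simp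
        ring
      rw [e]
      nlinarith
  have h2 : M * ((σ + 1) * M + ((1 + σ) - θ * (2 * σ + 1 + θ))) /
      ((1 - θ) * (M - θ) * (M + 1 + σ)) ≤ 2 / (1 - θ) ^ 2 := by
    have h3 : 0 < 1 - θ := by linarith
    have h4 : 0 < (M : ℝ) - θ := by linarith
    rw [div_le_div_iff₀ (by positivity) (by positivity)]
    have h5 : M * ((σ + 1) * M + ((1 + σ) - θ * (2 * σ + 1 + θ))) ≤ 2 * (M * (M + 1)) := by
      have : (M : ℝ) * ((σ + 1) * M + ((1 + σ) - θ * (2 * σ + 1 + θ))) ≤ M * ((σ + 1) * (M + 1)) := by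
        apply mul_le_mul_of_nonneg_left _ (by linarith)
        have : 0 ≤ θ * (2 * σ + 1 + θ) := by positivity
        nlinarith
      have h8 : (M : ℝ) * ((σ + 1) * (M + 1)) ≤ 2 * (M * (M + 1)) := by
        have h9 : 0 ≤ (1 - σ) * (M * (M + 1)) := by
          apply mul_nonneg (by linarith) (by positivity)
        nlinarith
      exact this.trans h8
    have h6 : (M : ℝ) * (1 - θ) ≤ M - θ := by nlinarith
    have h7 : (M : ℝ) * (M + 1) * (1 - θ) ≤ (M - θ) * (M + 1 + σ) := by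
      calc (M : ℝ) * (M + 1) * (1 - θ) = (M * (1 - θ)) * (M + 1) := by ring
        _ ≤ (M - θ) * (M + 1) := mul_le_mul_of_nonneg_right h6 (by linarith)
        _ ≤ (M - θ) * (M + 1 + σ) := mul_le_mul_of_nonneg_left (by linarith) h4.le
    calc M * ((σ + 1) * M + ((1 + σ) - θ * (2 * σ + 1 + θ))) * (1 - θ) ^ 2
        ≤ 2 * (M * (M + 1)) * (1 - θ) ^ 2 := mul_le_mul_of_nonneg_right h5 (by positivity)
      _ = 2 * (1 - θ) * (M * (M + 1) * (1 - θ)) := by ring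
      _ ≤ 2 * (1 - θ) * ((M - θ) * (M + 1 + σ)) := mul_le_mul_of_nonneg_left h7 (by positivity)
      _ = 2 * ((1 - θ) * (M - θ) * (M + 1 + σ)) := by ring
  unfold GG
  have h3 := tau_nonneg hσ θ M
  have h4 : 0 < 1 - θ := by linarith
  calc tau σ θ M * (M * ((σ + 1) * M + ((1 + σ) - θ * (2 * σ + 1 + θ))) /
      ((1 - θ) * (M - θ) * (M + 1 + σ))) ≤ tau σ θ M * (2 / (1 - θ) ^ 2) :=
        mul_le_mul_of_nonneg_left h2 h3
    _ ≤ Real.exp (-(θ * ∑ i ∈ Finset.range M, 1 / ((i : ℝ) + 1))) * (2 / (1 - θ) ^ 2) :=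
        mul_le_mul_of_nonneg_right ht (by positivity)
    _ = _ := by ring

theorem exists_N {θ ε : ℝ} (h0 : 0 < θ) (h1 : θ < 1) (hε : 0 < ε) :
    ∃ N : ℕ, 1 ≤ N ∧ ∀ σ : ℝ, 0 < σ → σ ≤ 1 → GG σ θ N ≤ ε := by
  have hT : Tendsto (fun M : ℕ => 2 / (1 - θ) ^ 2 *
      Real.exp (-(θ * ∑ i ∈ Finset.range M, 1 / ((i : ℝ) + 1)))) atTop (𝓝 0) := by
    have h2 := Real.tendsto_sum_range_one_div_nat_succ_atTop
    have h3 := h2.const_mul_atTop h0
    have h4 := Real.tendsto_exp_neg_atTop_nhds_zero.comp h3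
    have h5 := h4.const_mul (2 / (1 - θ) ^ 2)
    rw [mul_zero] at h5
    exact h5
  obtain ⟨N, hN1, hN2⟩ := ((hT.eventually_lt_const hε).and (eventually_ge_atTop 1)).exists
  exact ⟨N, hN2, fun σ hσ hσ1 => (GG_le hσ hσ1 h0 h1 hN2).trans hN1.le⟩

/-- the moments -/
theorem mom_zero {σ : ℝ} (hσ : 0 < σ) : σ * Lam σ (X ^ 0) = 1 := by
  have h := Lam_parts hσ (R := X) (by simp)
  have e : ((1 - X) * derivative X - C σ * X : ℝ[X]) = X ^ 0 - C (1 + σ) * X := by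
    simp only [derivative_X, C_add, C_1, pow_zero]
    ring
  rw [e, Lam_sub hσ, Lam_C_mul] at h
  have h2 : Lam σ ((1 : ℝ[X]) * 1) = ∫ x in (0:ℝ)..1, (1 - x) ^ (σ - 1) := by
    unfold Lam
    simp
  have h3 : ∫ x in (0:ℝ)..1, (1 - x) ^ (σ - 1) = 1 / σ := by
    rw [intervalIntegral.integral_comp_sub_left (fun x : ℝ => x ^ (σ - 1)) 1]
    rw [integral_rpow (Or.inl (by linarith))]
    simp [Real.zero_rpow hσ.ne']
  rw [pow_zero, ← mul_one (1 : ℝ[X]), h2, h3]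
  field_simp

theorem mom_one {σ : ℝ} (hσ : 0 < σ) (m : ℕ) :
    (m + 1 + σ) * Lam σ (X ^ m * (1 - X)) = σ * Lam σ (X ^ m) := by
  have h := Lam_parts hσ (R := X ^ (m + 1)) (by simp)
  have e : ((1 - X) * derivative (X ^ (m + 1)) - C σ * X ^ (m + 1) : ℝ[X]) =
      C ((m : ℝ) + 1 + σ) * (X ^ m * (1 - X)) - C σ * X ^ m := by
    simp only [derivative_X_pow, C_add, C_1, Nat.add_sub_cancel, Nat.cast_add, Nat.cast_one]
    ring
  rw [e, Lam_sub hσ, Lam_C_mul, Lam_C_mul] at h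
  linarith

theorem mom_succ {σ : ℝ} (hσ : 0 < σ) (m : ℕ) :
    (m + 1 + σ) * Lam σ (X ^ (m + 1)) = (m + 1) * Lam σ (X ^ m) := by
  have h := mom_one hσ m
  have e : (X ^ (m + 1) : ℝ[X]) = X ^ m - X ^ m * (1 - X) := by ring
  rw [e, Lam_sub hσ]
  linarith

theorem mom_two {σ : ℝ} (hσ : 0 < σ) {m : ℕ} (hm : 1 ≤ m) :
    m * (m + 1 + σ) * Lam σ (X ^ (m - 1) * (1 - X) ^ 2) = (1 + σ) * σ * Lam σ (X ^ m) := by
  have h1 := mom_one hσ m
  have hXF : ((m : ℝ)) * Lam σ (X ^ (m - 1) * (1 - X) ^ 2) = (1 + σ) * Lam σ (X ^ m * (1 - X)) := by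
    obtain ⟨j, hj⟩ : ∃ j, m = j + 1 := ⟨m - 1, by omega⟩
    have hp := Lam_parts hσ (R := X ^ m * (1 - X)) (by rw [hj]; simp)
    have e1 : (1 - X) * derivative (X ^ m * (1 - X)) - C σ * (X ^ m * (1 - X)) =
        C (m : ℝ) * (X ^ (m - 1) * (1 - X) ^ 2) - C (1 + σ) * (X ^ m * (1 - X)) := by
      rw [hj]
      simp only [derivative_mul, derivative_X_pow, derivative_sub, derivative_one, derivative_X,
        C_add, C_1, Nat.add_sub_cancel]
      ring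
    rw [e1, Lam_sub hσ, Lam_C_mul, Lam_C_mul] at hp
    linarith
  calc m * (m + 1 + σ) * Lam σ (X ^ (m - 1) * (1 - X) ^ 2)
      = (m + 1 + σ) * (m * Lam σ (X ^ (m - 1) * (1 - X) ^ 2)) := by ring
    _ = (m + 1 + σ) * ((1 + σ) * Lam σ (X ^ m * (1 - X))) := by rw [hXF]
    _ = (1 + σ) * ((m + 1 + σ) * Lam σ (X ^ m * (1 - X))) := by ring
    _ = _ := by rw [h1]; ring

theorem mom_pos {σ : ℝ} (hσ : 0 < σ) (m : ℕ) : 0 < Lam σ (X ^ m) := by
  apply Lam_pos hσ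
  intro x hx
  rw [eval_pow, eval_X]
  exact pow_pos hx.1 _

/-- `σ Λ(X ^ m)` is between `exp (-σ) (m + 1) ^ (-σ)` and `1` -/
theorem mom_le {σ : ℝ} (hσ : 0 < σ) : ∀ m : ℕ, σ * Lam σ (X ^ m) ≤ 1
  | 0 => (mom_zero hσ).le
  | m + 1 => by
    have h := mom_le hσ m
    have h2 := mom_succ hσ m
    have h3 := mom_pos hσ (m + 1)
    have h4 := mom_pos hσ m
    have h5 : Lam σ (X ^ (m + 1)) ≤ Lam σ (X ^ m) := by
      have hm : (0 : ℝ) ≤ m := Nat.cast_nonneg m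
      by_contra hcon
      push Not at hcon
      nlinarith
    nlinarith

/-- **Lower bound**, with the constants -/
theorem lower' {σ θ : ℝ} (hσ : 0 < σ) (hθ0 : 0 < θ) (hθ1 : θ < 1) {m N : ℕ} (hN : 1 ≤ N)
    (hm : N ≤ m) {P : ℕ → ℝ[X]} {g e : ℝ} (h0 : P 0 = C g)
    (h1 : P 1 = C (θ * g) * X + C e * (1 - X))
    (hP : ∀ n : ℕ, n < N → DD (n + 1) (P (n + 1)) = C (-(n - θ)) * P n) :
    SF σ θ N * Lam σ (X ^ m) * ((1 + σ) * σ / (m * (m + 1 + σ)) * (e + θ * m * g / (1 + σ)) ^ 2 -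
      θ / (1 - θ) * (kap σ θ + max (GG σ θ N) 0) * g ^ 2) ≤
      ∑ n ∈ Finset.range (N + 1), ((n : ℝ) - θ) * ip σ (m - n) (P n) (P n) := by
  have hl := lower hσ hθ0 hθ1 hN hm h0 h1 hP
  refine le_trans ?_ hl
  have ht := tele hσ hθ0 hθ1 N
  have hI := mom_pos hσ m
  have hN0 : (1 : ℝ) ≤ N := by exact_mod_cast hN
  have hm0 : (1 : ℝ) ≤ m := by exact_mod_cast hN.trans hm
  have hJ : Lam σ (X ^ (m - 1) * (1 - X) ^ 2) = (1 + σ) * σ / (m * (m + 1 + σ)) * Lam σ (X ^ m) := by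
    have h2 := mom_two hσ (m := m) (hN.trans hm)
    field_simp
    linarith
  rw [Finset.sum_range_succ, hJ]
  have hSF := SF_ge hσ hθ1 hN (θ := θ)
  have hE : 0 ≤ ((N : ℝ) - θ) * cE σ θ N := mul_nonneg (by linarith) (cE_nonneg hσ θ N)
  change (∑ n ∈ Finset.range N, ((n : ℝ) - θ) * cE σ θ n) +
      θ * kap σ θ / (1 - θ) * SF σ θ N = -θ * GG σ θ N at ht
  change _ ≤ _ + SF σ θ N * _
  have h1θ : 0 < 1 - θ := by linarith
  have hs : ∑ n ∈ Finset.range N, ((n : ℝ) - θ) * cE σ θ n =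
      -θ * GG σ θ N - θ * kap σ θ / (1 - θ) * SF σ θ N := by linarith
  have hs2 : -(θ / (1 - θ) * (kap σ θ + max (GG σ θ N) 0) * SF σ θ N) ≤
      ∑ n ∈ Finset.range N, ((n : ℝ) - θ) * cE σ θ n := by
    rw [hs]
    have h3 : θ * GG σ θ N ≤ θ / (1 - θ) * max (GG σ θ N) 0 * SF σ θ N := by
      have h4 : GG σ θ N ≤ max (GG σ θ N) 0 := le_max_left _ _
      have h5 : 0 ≤ max (GG σ θ N) 0 := le_max_right _ _
      have h6 : 1 ≤ SF σ θ N / (1 - θ) := by rw [one_le_div h1θ]; exact hSF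
      calc θ * GG σ θ N ≤ θ * max (GG σ θ N) 0 := mul_le_mul_of_nonneg_left h4 hθ0.le
        _ ≤ θ * max (GG σ θ N) 0 * (SF σ θ N / (1 - θ)) :=
          le_mul_of_one_le_right (by positivity) h6
        _ = _ := by ring
    have h7 : θ / (1 - θ) * (kap σ θ + max (GG σ θ N) 0) * SF σ θ N =
        θ * kap σ θ / (1 - θ) * SF σ θ N + θ / (1 - θ) * max (GG σ θ N) 0 * SF σ θ N := by ring
    rw [h7]
    linarith
  have hg : 0 ≤ g ^ 2 * Lam σ (X ^ m) := by positivity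
  have h8 : -(θ / (1 - θ) * (kap σ θ + max (GG σ θ N) 0) * SF σ θ N) * (g ^ 2 * Lam σ (X ^ m)) ≤
      (∑ n ∈ Finset.range N, ((n : ℝ) - θ) * cE σ θ n + ((N : ℝ) - θ) * cE σ θ N) *
        (g ^ 2 * Lam σ (X ^ m)) :=
    mul_le_mul_of_nonneg_right (by linarith) hg
  refine le_trans (le_of_eq ?_) (add_le_add h8 (le_refl _))
  ring

end Pool.Agent.W5h41.MA
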