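import Pool.Agent.H64.G.T9f66d723.W5h41.MA4
import Pool.Agent.H64.G.R_seed8.Helper240.ZFM.AreaA

set_option autoImplicit false

/-! # The area inequality after a Moebius change of variables -/

namespace Pool.Agent.W5h41.MA

open Complex Metric Set Filter Topology MeasureTheory
open Pool.Agent.W677.Mar
open Pool.Agent.H33R3.Bom (J)

/-- Taylor coefficient at `0` -/
noncomputable def cf (m : ℕ) (φ : ℂ → ℂ) : ℂ := (m.factorial : ℂ)⁻¹ * iteratedDeriv m φ 0

theorem cf_hasSum {φ : ℂ → ℂ} {r : ℝ} (h : DifferentiableOn ℂ φ (ball 0 r)) {z : ℂ}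
    (hz : z ∈ ball (0 : ℂ) r) : HasSum (fun m => cf m φ * z ^ m) (φ z) := by
  have := hasSum_taylorSeries_on_ball h hz
  have e : (fun m => cf m φ * z ^ m) =
      fun n : ℕ => (n.factorial : ℂ)⁻¹ • (z - 0) ^ n • iteratedDeriv n φ 0 := by
    funext m
    unfold cf
    rw [smul_eq_mul, smul_eq_mul, sub_zero]
    ring
  rw [e]
  exact this

theorem cf_deriv (m : ℕ) (φ : ℂ → ℂ) : cf m (deriv φ) = (m + 1) * cf (m + 1) φ := by
  unfold cf
  rw [iteratedDeriv_succ', Nat.factorial_succ]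
  have h1 : (m.factorial : ℂ) ≠ 0 := by exact_mod_cast m.factorial_ne_zero
  have h2 : (m : ℂ) + 1 ≠ 0 := by exact_mod_cast Nat.succ_ne_zero m
  push_cast
  field_simp

theorem cf_summable {φ : ℂ → ℂ} {r s : ℝ} (hs : 0 ≤ s) (hsr : s < r)
    (h : DifferentiableOn ℂ φ (ball 0 r)) : Summable fun m => ‖cf m φ‖ * s ^ m := by
  have hz : (s : ℂ) ∈ ball (0 : ℂ) r := by
    rw [mem_ball_zero_iff, Complex.norm_real, Real.norm_of_nonneg hs]
    exact hsr
  have := (cf_hasSum h hz).summable.norm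
  refine this.congr fun m => ?_
  rw [norm_mul, norm_pow, Complex.norm_real, Real.norm_of_nonneg hs]

theorem area_coeff {θ : ℝ} (hθ1 : θ < 1) {C : ℂ → ℂ} {r : ℝ} (hr : 1 < r)
    (hC : DifferentiableOn ℂ C (ball 0 r))
    (h : (∫ β in (0:ℝ)..(2 * Real.pi), (starRingEnd ℂ) (C (circleMap 0 1 β)) *
      (circleMap 0 1 β * deriv C (circleMap 0 1 β))).re ≤
      θ * (∫ β in (0:ℝ)..(2 * Real.pi), (starRingEnd ℂ) (C (circleMap 0 1 β)) *
        C (circleMap 0 1 β)).re) (N : ℕ) :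
    ∑ n ∈ Finset.range N, ((n : ℝ) + 1 - θ) * ‖cf (n + 1) C‖ ^ 2 ≤ θ * ‖cf 0 C‖ ^ 2 := by
  have hC' : DifferentiableOn ℂ (deriv C) (ball 0 r) := hC.deriv isOpen_ball
  have hzC : DifferentiableOn ℂ (fun z => z * deriv C z) (ball 0 r) := differentiableOn_id.mul hC'
  have hmem : ∀ z : ℂ, ‖z‖ = 1 → z ∈ ball (0 : ℂ) r := fun z hz => by
    rw [mem_ball_zero_iff, hz]; exact hr
  have hs1 := cf_summable zero_le_one hr hC
  -- coefficients of z C'
  have hb : ∀ z : ℂ, ‖z‖ = 1 →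
      HasSum (fun j : ℕ => ((j : ℂ) * cf j C) * z ^ j) (z * deriv C z) := by
    intro z hz
    have h1 := (cf_hasSum hC' (hmem z hz)).mul_left z
    have h2 : HasSum (fun j : ℕ => (((j + 1 : ℕ) : ℂ) * cf (j + 1) C) * z ^ (j + 1))
        (z * deriv C z) := by
      have e : (fun j : ℕ => (((j + 1 : ℕ) : ℂ) * cf (j + 1) C) * z ^ (j + 1)) =
          fun j : ℕ => z * (cf j (deriv C) * z ^ j) := by
        funext j
        rw [cf_deriv]
        push_cast
        ring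
      rw [e]
      exact h1
    have h3 := (hasSum_nat_add_iff' (f := fun j : ℕ => ((j : ℂ) * cf j C) * z ^ j)
      (g := z * deriv C z) 1)
    simp only [Finset.range_one, Finset.sum_singleton, Nat.cast_zero, zero_mul, sub_zero] at h3
    exact h3.1 h2
  have hs2 : Summable fun j : ℕ => ‖(j : ℂ) * cf j C‖ * (1 : ℝ) ^ j := by
    have h1 := (hb 1 (by simp)).summable.norm
    refine h1.congr fun j => ?_
    simp
  have p0 := Pool.Agent.Helper405.Area.parseval zero_le_one hs1 hs1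
    (fun z hz => cf_hasSum hC (hmem z hz)) (fun z hz => cf_hasSum hC (hmem z hz))
  have p1 := Pool.Agent.Helper405.Area.parseval zero_le_one hs1 hs2
    (fun z hz => cf_hasSum hC (hmem z hz)) hb
  have q0 := Complex.hasSum_re p0
  have q1 := Complex.hasSum_re p1
  have e0 : ∀ j : ℕ, ((starRingEnd ℂ) (cf j C) * cf j C * (((1 : ℝ) ^ (2 * j) : ℝ) : ℂ)).re =
      ‖cf j C‖ ^ 2 := by
    intro j
    rw [one_pow, Complex.ofReal_one, mul_one, ← Complex.normSq_eq_conj_mul_self,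
      Complex.ofReal_re, Complex.normSq_eq_norm_sq]
  have e1 : ∀ j : ℕ, ((starRingEnd ℂ) (cf j C) * ((j : ℂ) * cf j C) *
      (((1 : ℝ) ^ (2 * j) : ℝ) : ℂ)).re = j * ‖cf j C‖ ^ 2 := by
    intro j
    rw [show (starRingEnd ℂ) (cf j C) * ((j : ℂ) * cf j C) = ((j : ℝ) : ℂ) *
      ((starRingEnd ℂ) (cf j C) * cf j C) by push_cast; ring, mul_assoc, Complex.re_ofReal_mul, e0]
  simp only [e0] at q0
  simp only [e1] at q1
  have q2 := q1.sub (q0.mul_left θ)
  have hpi : ∀ z : ℂ, ((2 * Real.pi : ℂ)⁻¹ * z).re = (2 * Real.pi)⁻¹ * z.re := by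
    intro z
    rw [show (2 * Real.pi : ℂ)⁻¹ = (((2 * Real.pi)⁻¹ : ℝ) : ℂ) by push_cast; ring,
      Complex.re_ofReal_mul]
  rw [hpi, hpi] at q2
  have hle := sum_le_hasSum (Finset.range (N + 1)) (fun j hj => by
    have hj' : 1 ≤ j := by
      rw [Finset.mem_range] at hj
      omega
    have : (1 : ℝ) ≤ j := by exact_mod_cast hj'
    have h2 := sq_nonneg ‖cf j C‖
    nlinarith) q2
  have hneg : (2 * Real.pi)⁻¹ * (∫ β in (0:ℝ)..(2 * Real.pi), (starRingEnd ℂ)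
      (C (circleMap 0 1 β)) * (circleMap 0 1 β * deriv C (circleMap 0 1 β))).re -
      θ * ((2 * Real.pi)⁻¹ * (∫ β in (0:ℝ)..(2 * Real.pi), (starRingEnd ℂ)
        (C (circleMap 0 1 β)) * C (circleMap 0 1 β)).re) ≤ 0 := by
    have : 0 < (2 * Real.pi)⁻¹ := by positivity
    nlinarith
  have hle2 := hle.trans hneg
  rw [Finset.sum_range_succ'] at hle2
  have e3 : ∑ k ∈ Finset.range N, (((k + 1 : ℕ) : ℝ) * ‖cf (k + 1) C‖ ^ 2 -
      θ * ‖cf (k + 1) C‖ ^ 2) = ∑ n ∈ Finset.range N, ((n : ℝ) + 1 - θ) * ‖cf (n + 1) C‖ ^ 2 := by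
    apply Finset.sum_congr rfl
    intro k _
    push_cast
    ring
  rw [e3] at hle2
  push_cast at hle2
  linarith

end Pool.Agent.W5h41.MA
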