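import Pool.Agent.H64.G.T9f66d723.W5h41.MA6
import Pool.Agent.H64.G.T9f66d723.W5h41.MA3

set_option autoImplicit false

/-! # Taylor coefficients of the transformed function -/

namespace Pool.Agent.W5h41.MA

open Complex Metric Set Filter Topology MeasureTheory

theorem iter_diff {F : ℂ → ℂ} {r : ℝ} (hF : DifferentiableOn ℂ F (ball 0 r)) (k : ℕ) :
    DifferentiableOn ℂ (iteratedDeriv k F) (ball 0 r) := by
  induction k with
  | zero => rwa [iteratedDeriv_zero]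
  | succ k ih => rw [iteratedDeriv_succ]; exact ih.deriv isOpen_ball

/-- Taylor coefficient function -/
noncomputable def Fk (F : ℂ → ℂ) (k : ℕ) (v : ℂ) : ℂ := (k.factorial : ℂ)⁻¹ * iteratedDeriv k F v

theorem Fk_hasDerivAt {F : ℂ → ℂ} {r : ℝ} (hF : DifferentiableOn ℂ F (ball 0 r)) (k : ℕ) {v : ℂ}
    (hv : v ∈ ball (0 : ℂ) r) : HasDerivAt (Fk F k) ((k + 1) * Fk F (k + 1) v) v := by
  have h1 := (((iter_diff hF k).differentiableAt (isOpen_ball.mem_nhds hv)).hasDerivAt).const_mul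
    (k.factorial : ℂ)⁻¹
  refine h1.congr_deriv ?_
  unfold Fk
  rw [iteratedDeriv_succ, Nat.factorial_succ]
  have h3 : (k.factorial : ℂ) ≠ 0 := by exact_mod_cast k.factorial_ne_zero
  have h2 : (k : ℂ) + 1 ≠ 0 := by exact_mod_cast Nat.succ_ne_zero k
  push_cast
  field_simp

/-- the hierarchy -/
noncomputable def CC (θ : ℂ) (F : ℂ → ℂ) (w : ℂ) (k : ℕ) : ℂ → ℂ := Cw (θ - k) (Fk F k) w

theorem CC_zero_eq (θ : ℂ) (F : ℂ → ℂ) (w : ℂ) : CC θ F w 0 = Cw θ F w := by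
  funext z
  unfold CC Cw Fk
  simp

theorem CC_at_zero (θ : ℂ) (F : ℂ → ℂ) (w : ℂ) (k : ℕ) : CC θ F w k 0 = Fk F k w := by
  unfold CC Cw mo
  simp

theorem CC_hasDerivAt {θ : ℂ} {F : ℂ → ℂ} {R0 : ℝ} (hF : DifferentiableOn ℂ F (ball 0 R0))
    {w z : ℂ} (h : ‖w‖ * ‖z‖ < 1) (hm : mo w z ∈ ball (0 : ℂ) R0) (k : ℕ) :
    HasDerivAt (CC θ F w k) (((θ - k) * (starRingEnd ℂ) w * CC θ F w k z +
      (k + 1) * ((1 - ‖w‖ ^ 2 : ℝ) : ℂ) * CC θ F w (k + 1) z) / (1 + (starRingEnd ℂ) w * z)) z := by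
  have hu := u_ne h
  have h1 := Cw_hasDerivAt (θ := θ - k) h (Fk_hasDerivAt hF k hm)
  refine h1.congr_deriv ?_
  unfold CC Cw
  have e1 : Complex.exp ((θ - k) * Complex.log (1 + (starRingEnd ℂ) w * z)) =
      Complex.exp ((θ - (k + 1 : ℕ)) * Complex.log (1 + (starRingEnd ℂ) w * z)) *
        (1 + (starRingEnd ℂ) w * z) := by
    have e3 : Complex.exp ((θ - (k + 1 : ℕ)) * Complex.log (1 + (starRingEnd ℂ) w * z)) *
        (1 + (starRingEnd ℂ) w * z) =
        Complex.exp ((θ - (k + 1 : ℕ)) * Complex.log (1 + (starRingEnd ℂ) w * z)) *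
        Complex.exp (Complex.log (1 + (starRingEnd ℂ) w * z)) := by rw [Complex.exp_log hu]
    rw [e3, ← Complex.exp_add]
    congr 1
    push_cast
    ring
  rw [e1]
  field_simp

theorem CC_diff {θ : ℂ} {F : ℂ → ℂ} {R0 r1 : ℝ} (hF : DifferentiableOn ℂ F (ball 0 R0))
    {w : ℂ} (hr : ∀ z ∈ ball (0 : ℂ) r1, ‖w‖ * ‖z‖ < 1 ∧ mo w z ∈ ball (0 : ℂ) R0) (k : ℕ) :
    DifferentiableOn ℂ (CC θ F w k) (ball 0 r1) := fun z hz =>
  (CC_hasDerivAt hF (hr z hz).1 (hr z hz).2 k).differentiableAt.differentiableWithinAt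

theorem CC_iter {θ : ℂ} {F : ℂ → ℂ} {R0 r1 : ℝ} (hF : DifferentiableOn ℂ F (ball 0 R0))
    {w : ℂ} (hr : ∀ z ∈ ball (0 : ℂ) r1, ‖w‖ * ‖z‖ < 1 ∧ mo w z ∈ ball (0 : ℂ) R0) (k j : ℕ) :
    ∀ z ∈ ball (0 : ℂ) r1, (1 + (starRingEnd ℂ) w * z) * iteratedDeriv (j + 1) (CC θ F w k) z =
      (θ - k - j) * (starRingEnd ℂ) w * iteratedDeriv j (CC θ F w k) z +
      (k + 1) * ((1 - ‖w‖ ^ 2 : ℝ) : ℂ) * iteratedDeriv j (CC θ F w (k + 1)) z := by
  induction j with
  | zero =>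
    intro z hz
    rw [iteratedDeriv_one, iteratedDeriv_zero, iteratedDeriv_zero,
      (CC_hasDerivAt hF (hr z hz).1 (hr z hz).2 k).deriv, mul_div_cancel₀ _ (u_ne (hr z hz).1)]
    simp
  | succ j ih =>
    intro z hz
    have d1 : ∀ i k, HasDerivAt (iteratedDeriv i (CC θ F w k))
        (iteratedDeriv (i + 1) (CC θ F w k) z) z := by
      intro i k
      rw [iteratedDeriv_succ]
      exact (((iter_diff (CC_diff hF hr k) i).differentiableAt (isOpen_ball.mem_nhds hz))).hasDerivAt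
    have h2 : HasDerivAt (fun z => 1 + (starRingEnd ℂ) w * z) ((starRingEnd ℂ) w) z := by
      have := ((hasDerivAt_id z).const_mul ((starRingEnd ℂ) w)).const_add 1
      simpa using this
    have h3 := h2.mul (d1 (j + 1) k)
    have h4 := ((d1 j k).const_mul ((θ - k - j) * (starRingEnd ℂ) w)).add
      ((d1 j (k + 1)).const_mul (((k : ℂ) + 1) * ((1 - ‖w‖ ^ 2 : ℝ) : ℂ)))
    have h5 : (fun z => (1 + (starRingEnd ℂ) w * z) * iteratedDeriv (j + 1) (CC θ F w k) z) =ᶠ[𝓝 z]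
        fun z => (θ - k - j) * (starRingEnd ℂ) w * iteratedDeriv j (CC θ F w k) z +
      (k + 1) * ((1 - ‖w‖ ^ 2 : ℝ) : ℂ) * iteratedDeriv j (CC θ F w (k + 1)) z := by
      filter_upwards [isOpen_ball.mem_nhds hz] with y hy
      exact ih y hy
    have h6 := h3.unique (h4.congr_of_eventuallyEq h5)
    push_cast at h6 ⊢
    linear_combination h6

theorem cf_zero (φ : ℂ → ℂ) : cf 0 φ = φ 0 := by
  unfold cf
  simp

theorem CC_cf {θ : ℂ} {F : ℂ → ℂ} {R0 r1 : ℝ} (hr1 : 0 < r1) (hF : DifferentiableOn ℂ F (ball 0 R0))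
    {w : ℂ} (hr : ∀ z ∈ ball (0 : ℂ) r1, ‖w‖ * ‖z‖ < 1 ∧ mo w z ∈ ball (0 : ℂ) R0) (k j : ℕ) :
    ((j : ℂ) + 1) * cf (j + 1) (CC θ F w k) =
      (θ - k - j) * (starRingEnd ℂ) w * cf j (CC θ F w k) +
      (k + 1) * ((1 - ‖w‖ ^ 2 : ℝ) : ℂ) * cf j (CC θ F w (k + 1)) := by
  have h := CC_iter (θ := θ) hF hr k j 0 (mem_ball_self hr1)
  rw [mul_zero, add_zero, one_mul] at h
  unfold cf
  rw [h, Nat.factorial_succ]
  have h3 : (j.factorial : ℂ) ≠ 0 := by exact_mod_cast j.factorial_ne_zero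
  have h2 : (j : ℂ) + 1 ≠ 0 := by exact_mod_cast Nat.succ_ne_zero j
  push_cast
  field_simp

/-- the closed form of the recursion -/
theorem closed {θ : ℝ} {p q : ℂ} {E : ℕ → ℂ} {c : ℕ → ℕ → ℂ} (h0 : ∀ k, c k 0 = E k)
    (h1 : ∀ k j : ℕ, ((j : ℂ) + 1) * c k (j + 1) = ((θ : ℂ) - k - j) * p * c k j +
      (k + 1) * q * c (k + 1) j) (j : ℕ) :
    ∀ k, c k j = ∑ i ∈ Finset.range (j + 1), ((k + i).choose i : ℂ) * (bn θ (k + i) (j - i) : ℂ) *
      p ^ (j - i) * q ^ i * E (k + i) := by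
  induction j with
  | zero =>
    intro k
    rw [zero_add, Finset.sum_range_one, h0]
    simp [bn_zero]
  | succ j ih =>
    intro k
    have hj : (j : ℂ) + 1 ≠ 0 := by exact_mod_cast Nat.succ_ne_zero j
    apply mul_left_cancel₀ hj
    rw [h1, ih k, ih (k + 1)]
    set T : ℕ → ℂ := fun i => ((k + i).choose i : ℂ) * (bn θ (k + i) (j + 1 - i) : ℂ) *
      p ^ (j + 1 - i) * q ^ i * E (k + i) with hT
    have e1 : ((j : ℂ) + 1) * ∑ i ∈ Finset.range (j + 1 + 1), T i =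
        ∑ i ∈ Finset.range (j + 1 + 1), ((j : ℂ) + 1 - i) * T i +
        ∑ i ∈ Finset.range (j + 1 + 1), (i : ℂ) * T i := by
      rw [Finset.mul_sum, ← Finset.sum_add_distrib]
      apply Finset.sum_congr rfl
      intro i _
      ring
    show _ = ((j : ℂ) + 1) * ∑ i ∈ Finset.range (j + 1 + 1), T i
    rw [e1, Finset.sum_range_succ (fun i => ((j : ℂ) + 1 - i) * T i),
      Finset.sum_range_succ' (fun i => (i : ℂ) * T i)]
    have e2 : ((j : ℂ) + 1 - ((j + 1 : ℕ) : ℂ)) * T (j + 1) = 0 := by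
      push_cast
      ring
    rw [e2, add_zero, Nat.cast_zero, zero_mul, add_zero]
    congr 1
    · rw [Finset.mul_sum]
      apply Finset.sum_congr rfl
      intro i hi
      have hi' : i ≤ j := Nat.lt_succ_iff.1 (Finset.mem_range.1 hi)
      obtain ⟨l, rfl⟩ : ∃ l, j = i + l := ⟨j - i, by omega⟩
      simp only [hT]
      have g1 : i + l - i = l := by omega
      have g2 : i + l + 1 - i = l + 1 := by omega
      rw [g1, g2]
      have g3 := bn_succ θ (k + i) l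
      have g4 : (bn θ (k + i) (l + 1) : ℂ) * (l + 1) = bn θ (k + i) l * (θ - (k + i : ℕ) - l) := by
        exact_mod_cast g3
      push_cast at g4 ⊢
      have g5 : (i : ℂ) + l + 1 - i = l + 1 := by ring
      rw [g5, show ((l : ℂ) + 1) * (((k + i).choose i : ℂ) * (bn θ (k + i) (l + 1) : ℂ) *
        p ^ (l + 1) * q ^ i * E (k + i)) = ((k + i).choose i : ℂ) * ((bn θ (k + i) (l + 1) : ℂ) *
          (l + 1)) * p ^ (l + 1) * q ^ i * E (k + i) by ring, g4]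
      ring
    · rw [Finset.mul_sum]
      apply Finset.sum_congr rfl
      intro i hi
      have hi' : i ≤ j := Nat.lt_succ_iff.1 (Finset.mem_range.1 hi)
      obtain ⟨l, rfl⟩ : ∃ l, j = i + l := ⟨j - i, by omega⟩
      simp only [hT]
      have g1 : i + l - i = l := by omega
      have g2 : i + l + 1 - (i + 1) = l := by omega
      have g3 : k + 1 + i = k + (i + 1) := by ring
      rw [g1, g2, g3]
      have g4 : (k + 1) * (k + (i + 1)).choose i = (i + 1) * (k + (i + 1)).choose (i + 1) := by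
        have := Nat.choose_succ_right_eq (k + (i + 1)) i
        have e : k + (i + 1) - i = k + 1 := by omega
        rw [e] at this
        linarith
      have g5 : ((k : ℂ) + 1) * ((k + (i + 1)).choose i : ℂ) = (i + 1) *
          ((k + (i + 1)).choose (i + 1) : ℂ) := by exact_mod_cast g4
      rw [show ((k : ℂ) + 1) * q * (((k + (i + 1)).choose i : ℂ) * (bn θ (k + (i + 1)) l : ℂ) *
        p ^ l * q ^ i * E (k + (i + 1))) = (((k : ℂ) + 1) * ((k + (i + 1)).choose i : ℂ)) * q *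
          (bn θ (k + (i + 1)) l : ℂ) * p ^ l * q ^ i * E (k + (i + 1)) by ring, g5]
      push_cast
      ring

/-- **Taylor coefficients of the transformed function.** -/
theorem Cw_cf {θ : ℝ} {F : ℂ → ℂ} {R0 : ℝ} (hR0 : 1 < R0) (hF : DifferentiableOn ℂ F (ball 0 R0))
    {w : ℂ} (hw : ‖w‖ < 1) (n : ℕ) :
    cf n (Cw θ F w) = ∑ i ∈ Finset.range (n + 1), (bn θ i (n - i) : ℂ) *
      (starRingEnd ℂ) w ^ (n - i) * ((1 - ‖w‖ ^ 2 : ℝ) : ℂ) ^ i * Fk F i w := by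
  obtain ⟨r1, hr1, hr⟩ := exists_r1 hR0 hw
  have h := closed (θ := θ) (p := (starRingEnd ℂ) w) (q := ((1 - ‖w‖ ^ 2 : ℝ) : ℂ))
    (E := fun k => Fk F k w) (c := fun k j => cf j (CC θ F w k))
    (fun k => by rw [cf_zero, CC_at_zero]) (fun k j => CC_cf (by linarith) hF hr k j) n 0
  simp only [CC_zero_eq] at h
  rw [h]
  apply Finset.sum_congr rfl
  intro i _
  simp

end Pool.Agent.W5h41.MA
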