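import Pool.Agent.H64.G.T9f66d723.W5h41.MA7
import Pool.Agent.H64.G.R_seed8.Helper401.ENV.C1

set_option autoImplicit false

/-! # Joint holomorphy and the diagonal Taylor coefficients -/

namespace Pool.Agent.W5h41.MA

open Complex Metric Set Filter Topology MeasureTheory
open Pool.Agent.W677.Mar

theorem osgood {Φ : ℂ × ℂ → ℂ} {R : ℝ} (hc : ContinuousOn Φ (ball 0 R ×ˢ ball 0 R))
    (h1 : ∀ v ∈ ball (0 : ℂ) R, DifferentiableOn ℂ (fun w => Φ (w, v)) (ball 0 R))
    (h2 : ∀ w ∈ ball (0 : ℂ) R, DifferentiableOn ℂ (fun v => Φ (w, v)) (ball 0 R)) :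
    DifferentiableOn ℂ Φ (ball 0 R ×ˢ ball 0 R) := by
  rintro ⟨a, b⟩ ⟨ha, hb⟩
  have hb' : ‖b‖ < R := mem_ball_zero_iff.1 hb
  obtain ⟨s, hs1, hs2⟩ := exists_between hb'
  have hs0 : 0 < s := (norm_nonneg b).trans_lt hs1
  have hcs : ∀ t : ℝ, circleMap 0 s t ∈ ball (0 : ℂ) R := fun t => by
    rw [mem_ball_zero_iff]
    simp [abs_of_pos hs0, hs2]
  have hU : IsOpen (ball (0 : ℂ) R ×ˢ ball (0 : ℂ) s) := isOpen_ball.prod isOpen_ball
  have hne : ∀ t : ℝ, ∀ v ∈ ball (0 : ℂ) s, circleMap 0 s t - v ≠ 0 := by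
    intro t v hv h
    rw [sub_eq_zero] at h
    rw [← h, mem_ball_zero_iff] at hv
    simp [abs_of_pos hs0] at hv
  have key := Pool.Agent.Helper401.ENV.C1.param_8105 hU
    (fun (t : ℝ) (q : ℂ × ℂ) => deriv (circleMap 0 s) t • ((circleMap 0 s t - q.2)⁻¹ •
      Φ (q.1, circleMap 0 s t))) ?_ ?_
  · have hev : (fun q : ℂ × ℂ => (2 * Real.pi * I : ℂ)⁻¹ • ∫ t in (0:ℝ)..(2 * Real.pi),
        deriv (circleMap 0 s) t • ((circleMap 0 s t - q.2)⁻¹ • Φ (q.1, circleMap 0 s t)))
        =ᶠ[𝓝 (a, b)] Φ := by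
      have : ball (0 : ℂ) R ×ˢ ball (0 : ℂ) s ∈ 𝓝 (a, b) :=
        hU.mem_nhds ⟨ha, mem_ball_zero_iff.2 hs1⟩
      filter_upwards [this] with q hq
      have hd : DiffContOnCl ℂ (fun v => Φ (q.1, v)) (ball 0 s) :=
        ((h2 q.1 hq.1).mono (closedBall_subset_ball hs2)).mono closure_ball_subset_closedBall
          |>.diffContOnCl
      exact hd.two_pi_i_inv_smul_circleIntegral_sub_inv_smul hq.2
    have h3 := (key.differentiableAt (hU.mem_nhds ⟨ha, mem_ball_zero_iff.2 hs1⟩)).const_smul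
      (2 * Real.pi * I : ℂ)⁻¹
    exact (h3.congr_of_eventuallyEq hev.symm).differentiableWithinAt
  · have c1 : ContinuousOn (fun p : ℝ × (ℂ × ℂ) => (p.2.1, circleMap 0 s p.1))
        (univ ×ˢ (ball (0 : ℂ) R ×ˢ ball (0 : ℂ) s)) :=
      ((continuous_fst.comp continuous_snd).prodMk
        ((continuous_circleMap 0 s).comp continuous_fst)).continuousOn
    have c2 : ContinuousOn (fun p : ℝ × (ℂ × ℂ) => Φ (p.2.1, circleMap 0 s p.1))
        (univ ×ˢ (ball (0 : ℂ) R ×ˢ ball (0 : ℂ) s)) :=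
      hc.comp c1 fun p hp => ⟨hp.2.1, hcs p.1⟩
    have c3 : ContinuousOn (fun p : ℝ × (ℂ × ℂ) => (circleMap 0 s p.1 - p.2.2)⁻¹)
        (univ ×ˢ (ball (0 : ℂ) R ×ˢ ball (0 : ℂ) s)) := by
      apply ContinuousOn.inv₀
      · exact (((continuous_circleMap 0 s).comp continuous_fst).sub
          (continuous_snd.comp continuous_snd)).continuousOn
      · intro p hp
        exact hne p.1 p.2.2 hp.2.2
    have c4 : ContinuousOn (fun p : ℝ × (ℂ × ℂ) => deriv (circleMap 0 s) p.1)
        (univ ×ˢ (ball (0 : ℂ) R ×ˢ ball (0 : ℂ) s)) := by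
      have : Continuous (deriv (circleMap 0 s)) := by
        have e : deriv (circleMap 0 s) = fun t => circleMap 0 s t * I := by
          funext t
          exact deriv_circleMap 0 s t
        rw [e]
        exact (continuous_circleMap 0 s).mul continuous_const
      exact (this.comp continuous_fst).continuousOn
    exact c4.smul (c3.smul c2)
  · intro t
    have d1 : DifferentiableOn ℂ (fun q : ℂ × ℂ => Φ (q.1, circleMap 0 s t))
        (ball (0 : ℂ) R ×ˢ ball (0 : ℂ) s) :=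
      (h1 _ (hcs t)).comp differentiable_fst.differentiableOn fun q hq => hq.1
    have d2 : DifferentiableOn ℂ (fun q : ℂ × ℂ => (circleMap 0 s t - q.2)⁻¹)
        (ball (0 : ℂ) R ×ˢ ball (0 : ℂ) s) := by
      apply DifferentiableOn.inv
      · exact (differentiable_snd.const_sub _).differentiableOn
      · intro q hq
        exact hne t q.2 hq.2
    exact (d2.fun_smul d1).fun_const_smul _

/-- the diagonal Taylor coefficients are holomorphic -/
theorem diag_diff {Φ : ℂ × ℂ → ℂ} {R : ℝ} (h : DifferentiableOn ℂ Φ (ball 0 R ×ˢ ball 0 R))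
    (k : ℕ) : DifferentiableOn ℂ (fun w => Fk (fun v => Φ (w, v)) k w) (ball 0 R) := by
  intro a ha
  have ha' : ‖a‖ < R := mem_ball_zero_iff.1 ha
  obtain ⟨δ, hδ0, hδ⟩ : ∃ δ : ℝ, 0 < δ ∧ ‖a‖ < R - δ := ⟨(R - ‖a‖) / 2, by linarith, by linarith⟩
  have hsum : ∀ w ∈ ball (0 : ℂ) (R - δ), ∀ z ∈ closedBall w δ, z ∈ ball (0 : ℂ) R := by
    intro w hw z hz
    rw [mem_ball_zero_iff] at hw ⊢
    have h1 : ‖z - w‖ ≤ δ := mem_closedBall_iff_norm.1 hz
    have h2 : ‖z‖ ≤ ‖z - w‖ + ‖w‖ := by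
      have := norm_add_le (z - w) w
      rwa [sub_add_cancel] at this
    linarith
  have hwR : ∀ w ∈ ball (0 : ℂ) (R - δ), w ∈ ball (0 : ℂ) R := fun w hw =>
    hsum w hw w (mem_closedBall_self hδ0.le)
  have hcm : ∀ w : ℂ, ∀ t : ℝ, circleMap w δ t ∈ closedBall w δ := fun w t =>
    circleMap_mem_closedBall w hδ0.le t
  have key := Pool.Agent.Helper401.ENV.C1.param_8105 (isOpen_ball (x := (0 : ℂ)) (ε := R - δ))
    (fun (t : ℝ) (w : ℂ) => deriv (circleMap w δ) t • ((1 / (circleMap w δ t - w) ^ (k + 1)) •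
      Φ (w, circleMap w δ t))) ?_ ?_
  · have hev : (fun w : ℂ => (2 * Real.pi * I : ℂ)⁻¹ • ∫ t in (0:ℝ)..(2 * Real.pi),
        deriv (circleMap w δ) t • ((1 / (circleMap w δ t - w) ^ (k + 1)) •
          Φ (w, circleMap w δ t))) =ᶠ[𝓝 a] fun w => Fk (fun v => Φ (w, v)) k w := by
      filter_upwards [isOpen_ball.mem_nhds (mem_ball_zero_iff.2 hδ)] with w hw
      have hd : DifferentiableOn ℂ (fun v => Φ (w, v)) (closedBall w δ) := by
        have : DifferentiableOn ℂ (fun v : ℂ => (w, v)) (closedBall w δ) :=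
          (differentiableOn_const w).prodMk differentiableOn_id
        exact h.comp this fun v hv => ⟨hwR w hw, hsum w hw v hv⟩
      have h3 := hd.circleIntegral_one_div_sub_center_pow_smul hδ0 k
      have h4 : ∫ t in (0:ℝ)..(2 * Real.pi),
        deriv (circleMap w δ) t • ((1 / (circleMap w δ t - w) ^ (k + 1)) •
          Φ (w, circleMap w δ t)) = (2 * Real.pi * I / k.factorial : ℂ) •
            iteratedDeriv k (fun v => Φ (w, v)) w := h3
      show (2 * Real.pi * I : ℂ)⁻¹ • (∫ t in (0:ℝ)..(2 * Real.pi),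
        deriv (circleMap w δ) t • ((1 / (circleMap w δ t - w) ^ (k + 1)) •
          Φ (w, circleMap w δ t))) = _
      rw [h4, smul_smul]
      unfold Fk
      rw [smul_eq_mul]
      congr 1
      have hπ : (2 * Real.pi * I : ℂ) ≠ 0 := Complex.two_pi_I_ne_zero
      field_simp
    have h3 := (key.differentiableAt (isOpen_ball.mem_nhds (mem_ball_zero_iff.2 hδ))).const_smul
      (2 * Real.pi * I : ℂ)⁻¹
    exact (h3.congr_of_eventuallyEq hev.symm).differentiableWithinAt
  · have hcc : Continuous fun p : ℝ × ℂ => circleMap p.2 δ p.1 := by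
      unfold circleMap
      fun_prop
    have c1 : ContinuousOn (fun p : ℝ × ℂ => Φ (p.2, circleMap p.2 δ p.1))
        (univ ×ˢ ball (0 : ℂ) (R - δ)) := by
      apply h.continuousOn.comp ((continuous_snd.prodMk hcc).continuousOn)
      intro p hp
      exact ⟨hwR _ hp.2, hsum _ hp.2 _ (hcm _ _)⟩
    have c2 : Continuous (fun p : ℝ × ℂ => (1 / (circleMap p.2 δ p.1 - p.2) ^ (k + 1) : ℂ)) := by
      apply continuous_const.div ((hcc.sub continuous_snd).pow _)
      intro p
      apply pow_ne_zero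
      show circleMap p.2 δ p.1 - p.2 ≠ 0
      rw [circleMap_sub_center]
      rw [← norm_pos_iff]
      simp [hδ0.ne']
    have c3 : Continuous fun p : ℝ × ℂ => deriv (circleMap p.2 δ) p.1 := by
      simp only [deriv_circleMap]
      unfold circleMap
      fun_prop
    exact c3.continuousOn.smul (c2.continuousOn.smul c1)
  · intro t
    have d1 : DifferentiableOn ℂ (fun w : ℂ => Φ (w, circleMap w δ t)) (ball (0 : ℂ) (R - δ)) := by
      have : DifferentiableOn ℂ (fun w : ℂ => (w, circleMap w δ t)) (ball (0 : ℂ) (R - δ)) := by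
        unfold circleMap
        fun_prop
      exact h.comp this fun w hw => ⟨hwR w hw, hsum w hw _ (hcm _ _)⟩
    have d2 : (fun w : ℂ => deriv (circleMap w δ) t • ((1 / (circleMap w δ t - w) ^ (k + 1)) •
      Φ (w, circleMap w δ t))) = fun w : ℂ => (circleMap 0 δ t * I) • ((1 / (circleMap 0 δ t) ^ (k + 1)) •
      Φ (w, circleMap w δ t)) := by
      funext w
      rw [deriv_circleMap, circleMap_sub_center]
    rw [d2]
    exact (d1.fun_const_smul _).fun_const_smul _

end Pool.Agent.W5h41.MA
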