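import Pool.Agent.H64.G.T9f66d723.W5h41.MA8

set_option autoImplicit false

/-! # The functions `e k` and the quadratic inequality -/

namespace Pool.Agent.W5h41.MA

open Complex Metric Set Filter Topology MeasureTheory
open Pool.Agent.W677.Mar

variable {Y H : ℂ → ℂ} {f : ℂ × ℂ → ℂ}

/-- the two variable power -/
noncomputable def FF (θ ρ : ℝ) (f : ℂ × ℂ → ℂ) (p : ℂ × ℂ) : ℂ :=
  Complex.exp (-(θ : ℂ) * f (ρ * p.1, ρ * p.2))

/-- the functions `e k` -/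
noncomputable def ee (θ ρ : ℝ) (s : ℂ) (H : ℂ → ℂ) (f : ℂ × ℂ → ℂ) (k : ℕ) (w : ℂ) : ℂ :=
  Complex.exp ((θ + s) * H (ρ * w)) * Fk (fun v => FF θ ρ f (w, v)) k w

theorem scale_mem {ρ : ℝ} (hρ : 0 < ρ) {w : ℂ} (hw : w ∈ ball (0 : ℂ) ρ⁻¹) :
    (ρ : ℂ) * w ∈ ball (0 : ℂ) 1 := by
  rw [mem_ball_zero_iff] at hw ⊢
  rw [norm_mul, Complex.norm_real, Real.norm_of_nonneg hρ.le]
  have := mul_lt_mul_of_pos_left hw hρ
  rwa [mul_inv_cancel₀ hρ.ne'] at this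

theorem f_joint (S : Sg Y H) (L : Lg Y f) : DifferentiableOn ℂ f (ball 0 1 ×ˢ ball 0 1) :=
  osgood L.cont (fun _ hv => L.diff1 S.G.diff hv) (fun _ hw => L.diff2 S.G.diff hw)

theorem FF_joint (S : Sg Y H) (L : Lg Y f) {ρ : ℝ} (hρ : 0 < ρ) (θ : ℝ) :
    DifferentiableOn ℂ (FF θ ρ f) (ball 0 ρ⁻¹ ×ˢ ball 0 ρ⁻¹) := by
  have h1 : DifferentiableOn ℂ (fun p : ℂ × ℂ => f (ρ * p.1, ρ * p.2)) (ball 0 ρ⁻¹ ×ˢ ball 0 ρ⁻¹) := by
    apply (f_joint S L).comp (f := fun p : ℂ × ℂ => ((ρ : ℂ) * p.1, (ρ : ℂ) * p.2))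
    · fun_prop
    · intro p hp
      exact ⟨scale_mem hρ hp.1, scale_mem hρ hp.2⟩
  exact (h1.const_mul _).cexp

theorem ee_diff (S : Sg Y H) (L : Lg Y f) {ρ : ℝ} (hρ : 0 < ρ) (θ : ℝ) (s : ℂ) (k : ℕ) :
    DifferentiableOn ℂ (ee θ ρ s H f k) (ball 0 ρ⁻¹) := by
  have h1 : DifferentiableOn ℂ (fun w : ℂ => H (ρ * w)) (ball 0 ρ⁻¹) := by
    apply S.dH.comp (f := fun w : ℂ => (ρ : ℂ) * w)
    · fun_prop
    · intro w hw
      exact scale_mem hρ hw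
  exact ((h1.const_mul _).cexp).mul (diag_diff (FF_joint S L hρ θ) k)

theorem ee_zero (S : Sg Y H) (L : Lg Y f) {ρ : ℝ} (hρ : 0 < ρ) (θ : ℝ) (s : ℂ) {w : ℂ}
    (hw : w ∈ ball (0 : ℂ) ρ⁻¹) : ee θ ρ s H f 0 w = Complex.exp (s * H (ρ * w)) := by
  unfold ee Fk FF
  rw [iteratedDeriv_zero, Nat.factorial_zero]
  simp only
  rw [← L.diag S (scale_mem hρ hw)]
  push_cast
  rw [inv_one, one_mul, ← Complex.exp_add]
  congr 1
  ring

/-- the derivative on the diagonal -/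
theorem H_deriv (S : Sg Y H) (L : Lg Y f) {ζ : ℂ} (hζ : ζ ∈ ball (0 : ℂ) 1) :
    HasDerivAt H (2 * deriv (fun z => f (ζ, z)) ζ) ζ := by
  have hU : IsOpen (ball (0 : ℂ) 1 ×ˢ ball (0 : ℂ) 1) := isOpen_ball.prod isOpen_ball
  have hd := ((f_joint S L).differentiableAt (hU.mem_nhds (mk_mem_prod hζ hζ))).hasFDerivAt
  set A := fderiv ℂ f (ζ, ζ) with hA
  have h2 : HasDerivAt (fun z => f (ζ, z)) (A (0, 1)) ζ := by
    have : HasDerivAt (fun z : ℂ => (ζ, z)) ((0 : ℂ), (1 : ℂ)) ζ :=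
      (hasDerivAt_const ζ ζ).prodMk (hasDerivAt_id ζ)
    exact hd.comp_hasDerivAt ζ this
  have h1 : HasDerivAt (fun z => f (z, ζ)) (A (1, 0)) ζ := by
    have : HasDerivAt (fun z : ℂ => (z, ζ)) ((1 : ℂ), (0 : ℂ)) ζ :=
      (hasDerivAt_id ζ).prodMk (hasDerivAt_const ζ ζ)
    exact hd.comp_hasDerivAt (f := fun z : ℂ => (z, ζ)) ζ this
  have h3 : HasDerivAt (fun z => f (z, z)) (A (1, 1)) ζ := by
    have : HasDerivAt (fun z : ℂ => (z, z)) ((1 : ℂ), (1 : ℂ)) ζ :=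
      (hasDerivAt_id ζ).prodMk (hasDerivAt_id ζ)
    exact hd.comp_hasDerivAt (f := fun z : ℂ => (z, z)) ζ this
  have h4 : A (1, 0) = A (0, 1) := by
    apply h1.unique
    apply h2.congr_of_eventuallyEq
    filter_upwards [isOpen_ball.mem_nhds hζ] with z hz
    exact L.symm hz hζ
  have h5 : A (1, 1) = 2 * A (0, 1) := by
    have : ((1 : ℂ), (1 : ℂ)) = (1, 0) + (0, 1) := by simp
    rw [this, map_add, h4]
    ring
  rw [h2.deriv, ← h5]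
  apply h3.congr_of_eventuallyEq
  filter_upwards [isOpen_ball.mem_nhds hζ] with z hz
  exact L.diag S hz

theorem ee_one (S : Sg Y H) (L : Lg Y f) {ρ : ℝ} (hρ : 0 < ρ) (θ : ℝ) {s : ℂ} (hs : s ≠ 0) {w : ℂ}
    (hw : w ∈ ball (0 : ℂ) ρ⁻¹) :
    ee θ ρ s H f 1 w = -(θ / (2 * s)) * deriv (ee θ ρ s H f 0) w := by
  have hζ := scale_mem hρ hw
  have hH := H_deriv S L hζ
  have h1 : HasDerivAt (fun w : ℂ => (ρ : ℂ) * w) (ρ : ℂ) w := by
    simpa using (hasDerivAt_id w).const_mul (ρ : ℂ)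
  have h2 : HasDerivAt (ee θ ρ s H f 0) (Complex.exp (s * H (ρ * w)) *
      (s * (2 * deriv (fun z => f (ρ * w, z)) (ρ * w) * ρ))) w := by
    have h3 := ((hH.comp w h1).const_mul s).cexp
    apply h3.congr_of_eventuallyEq
    filter_upwards [isOpen_ball.mem_nhds hw] with z hz
    exact ee_zero S L hρ θ s hz
  have h4 : HasDerivAt (fun v => FF θ ρ f (w, v)) (FF θ ρ f (w, w) *
      (-(θ : ℂ) * (deriv (fun z => f (ρ * w, z)) (ρ * w) * ρ))) w := by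
    have h5 : HasDerivAt (fun z => f (ρ * w, z)) (deriv (fun z => f (ρ * w, z)) (ρ * w)) (ρ * w) :=
      ((L.diff2 S.G.diff hζ).differentiableAt (isOpen_ball.mem_nhds hζ)).hasDerivAt
    exact ((h5.comp w h1).const_mul (-(θ : ℂ))).cexp
  rw [h2.deriv]
  unfold ee Fk
  rw [iteratedDeriv_one, h4.deriv]
  unfold FF
  simp only
  rw [← L.diag S hζ]
  have e1 : Complex.exp ((θ + s) * H (ρ * w)) * Complex.exp (-(θ : ℂ) * H (ρ * w)) =
      Complex.exp (s * H (ρ * w)) := by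
    rw [← Complex.exp_add]
    congr 1
    ring
  rw [← e1]
  simp only [Nat.factorial_one, Nat.cast_one, inv_one, one_mul]
  field_simp

end Pool.Agent.W5h41.MA
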